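import Mathlib

/-!
The Bessel functions of order zero and one: energy, Taylor bounds. (helper862)
-/

set_option autoImplicit false

open MeasureTheory Set

namespace Pool.Agent.N862.TR

/-- the Bessel function of order zero -/
noncomputable def J (s : ℝ) : ℝ := Real.pi⁻¹ * ∫ θ in (0 : ℝ)..Real.pi, Real.cos (s * Real.sin θ)

/-- the Bessel function of order one -/
noncomputable def K (s : ℝ) : ℝ :=
  Real.pi⁻¹ * ∫ θ in (0 : ℝ)..Real.pi, Real.sin θ * Real.sin (s * Real.sin θ)

theorem J_deriv (s : ℝ) : HasDerivAt J (-K s) s := by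
  have h := (intervalIntegral.hasDerivAt_integral_of_dominated_loc_of_deriv_le
    (μ := volume) (a := (0 : ℝ)) (b := Real.pi) (s := univ) (bound := fun _ => 1)
    (F := fun x θ => Real.cos (x * Real.sin θ))
    (F' := fun x θ => -Real.sin (x * Real.sin θ) * Real.sin θ) (x₀ := s)
    Filter.univ_mem
    (Filter.Eventually.of_forall fun x => (by fun_prop : Continuous fun θ : ℝ =>
      Real.cos (x * Real.sin θ)).aestronglyMeasurable)
    ((by fun_prop : Continuous fun θ : ℝ => Real.cos (s * Real.sin θ)).intervalIntegrable _ _)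
    (by fun_prop : Continuous fun θ : ℝ =>
      -Real.sin (s * Real.sin θ) * Real.sin θ).aestronglyMeasurable
    (Filter.Eventually.of_forall fun θ _ x _ => by
      rw [Real.norm_eq_abs, abs_mul, abs_neg]
      exact mul_le_one₀ (Real.abs_sin_le_one _) (abs_nonneg _) (Real.abs_sin_le_one _))
    (intervalIntegrable_const)
    (Filter.Eventually.of_forall fun θ _ x _ => by
      exact (Real.hasDerivAt_cos _).comp x (hasDerivAt_mul_const (Real.sin θ)))).2
  have h2 := h.const_mul Real.pi⁻¹
  refine h2.congr_deriv ?_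
  unfold K
  rw [← mul_neg, ← intervalIntegral.integral_neg]
  congr 1
  apply intervalIntegral.integral_congr
  intro θ _
  simp only
  ring

theorem K_deriv' (s : ℝ) : HasDerivAt K
    (Real.pi⁻¹ * ∫ θ in (0 : ℝ)..Real.pi, Real.sin θ ^ 2 * Real.cos (s * Real.sin θ)) s := by
  have h := (intervalIntegral.hasDerivAt_integral_of_dominated_loc_of_deriv_le
    (μ := volume) (a := (0 : ℝ)) (b := Real.pi) (s := univ) (bound := fun _ => 1)
    (F := fun x θ => Real.sin θ * Real.sin (x * Real.sin θ))
    (F' := fun x θ => Real.sin θ * (Real.cos (x * Real.sin θ) * Real.sin θ)) (x₀ := s)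
    Filter.univ_mem
    (Filter.Eventually.of_forall fun x => (by fun_prop : Continuous fun θ : ℝ =>
      Real.sin θ * Real.sin (x * Real.sin θ)).aestronglyMeasurable)
    ((by fun_prop : Continuous fun θ : ℝ =>
      Real.sin θ * Real.sin (s * Real.sin θ)).intervalIntegrable _ _)
    (by fun_prop : Continuous fun θ : ℝ =>
      Real.sin θ * (Real.cos (s * Real.sin θ) * Real.sin θ)).aestronglyMeasurable
    (Filter.Eventually.of_forall fun θ _ x _ => by
      rw [Real.norm_eq_abs, abs_mul, abs_mul]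
      exact mul_le_one₀ (Real.abs_sin_le_one _) (by positivity)
        (mul_le_one₀ (Real.abs_cos_le_one _) (abs_nonneg _) (Real.abs_sin_le_one _)))
    (intervalIntegrable_const)
    (Filter.Eventually.of_forall fun θ _ x _ => by
      exact ((Real.hasDerivAt_sin _).comp x (hasDerivAt_mul_const (Real.sin θ))).const_mul _)).2
  have h2 := h.const_mul Real.pi⁻¹
  refine h2.congr_deriv ?_
  congr 1
  apply intervalIntegral.integral_congr
  intro θ _
  simp only
  ring

theorem parts (s : ℝ) :
    s * ∫ θ in (0 : ℝ)..Real.pi, Real.cos θ ^ 2 * Real.cos (s * Real.sin θ) =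
      ∫ θ in (0 : ℝ)..Real.pi, Real.sin θ * Real.sin (s * Real.sin θ) := by
  have h1 : ∀ θ : ℝ, HasDerivAt (fun θ => Real.cos θ * Real.sin (s * Real.sin θ))
      (-Real.sin θ * Real.sin (s * Real.sin θ) +
        Real.cos θ * (Real.cos (s * Real.sin θ) * (s * Real.cos θ))) θ := by
    intro θ
    exact (Real.hasDerivAt_cos θ).mul
      ((Real.hasDerivAt_sin _).comp θ ((Real.hasDerivAt_sin θ).const_mul s))
  have h2 := intervalIntegral.integral_eq_sub_of_hasDerivAt (a := 0) (b := Real.pi)
    (fun θ _ => h1 θ) ((by fun_prop : Continuous fun θ : ℝ =>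
      (-Real.sin θ * Real.sin (s * Real.sin θ) +
        Real.cos θ * (Real.cos (s * Real.sin θ) * (s * Real.cos θ)))).intervalIntegrable _ _)
  simp only [Real.sin_pi, Real.sin_zero, mul_zero, sub_zero] at h2
  rw [intervalIntegral.integral_add
    ((by fun_prop : Continuous fun θ : ℝ =>
      -Real.sin θ * Real.sin (s * Real.sin θ)).intervalIntegrable _ _)
    ((by fun_prop : Continuous fun θ : ℝ =>
      Real.cos θ * (Real.cos (s * Real.sin θ) * (s * Real.cos θ))).intervalIntegrable _ _)] at h2
  have h3 : ∫ θ in (0 : ℝ)..Real.pi, -Real.sin θ * Real.sin (s * Real.sin θ) =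
      -∫ θ in (0 : ℝ)..Real.pi, Real.sin θ * Real.sin (s * Real.sin θ) := by
    rw [← intervalIntegral.integral_neg]
    apply intervalIntegral.integral_congr
    intro θ _
    simp only
    ring
  have h4 : ∫ θ in (0 : ℝ)..Real.pi, Real.cos θ * (Real.cos (s * Real.sin θ) * (s * Real.cos θ)) =
      s * ∫ θ in (0 : ℝ)..Real.pi, Real.cos θ ^ 2 * Real.cos (s * Real.sin θ) := by
    rw [← intervalIntegral.integral_const_mul]
    apply intervalIntegral.integral_congr
    intro θ _
    simp only
    ring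
  rw [h3, h4] at h2
  linarith

theorem K_deriv (s : ℝ) (hs : s ≠ 0) : HasDerivAt K (J s - K s / s) s := by
  refine (K_deriv' s).congr_deriv ?_
  have h1 := parts s
  have h2 : ∫ θ in (0 : ℝ)..Real.pi, Real.sin θ ^ 2 * Real.cos (s * Real.sin θ) =
      (∫ θ in (0 : ℝ)..Real.pi, Real.cos (s * Real.sin θ)) -
        ∫ θ in (0 : ℝ)..Real.pi, Real.cos θ ^ 2 * Real.cos (s * Real.sin θ) := by
    rw [← intervalIntegral.integral_sub
      ((by fun_prop : Continuous fun θ : ℝ => Real.cos (s * Real.sin θ)).intervalIntegrable _ _)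
      ((by fun_prop : Continuous fun θ : ℝ =>
        Real.cos θ ^ 2 * Real.cos (s * Real.sin θ)).intervalIntegrable _ _)]
    apply intervalIntegral.integral_congr
    intro θ _
    simp only
    rw [Real.sin_sq]
    ring
  unfold J K
  rw [h2, ← h1]
  field_simp

/-- the energy -/
noncomputable def En (s : ℝ) : ℝ := J s ^ 2 + K s ^ 2

theorem En_anti : AntitoneOn En (Ioi 0) := by
  have hd : ∀ s ∈ Ioi (0 : ℝ), HasDerivAt En (-(2 * K s ^ 2 / s)) s := by
    intro s hs
    have hs0 : s ≠ 0 := ne_of_gt hs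
    have h := ((J_deriv s).pow 2).add ((K_deriv s hs0).pow 2)
    refine h.congr_deriv ?_
    field_simp
    ring
  apply antitoneOn_of_deriv_nonpos (convex_Ioi 0)
  · intro s hs
    exact (hd s hs).continuousAt.continuousWithinAt
  · intro s hs
    rw [interior_Ioi] at hs
    exact (hd s hs).differentiableAt.differentiableWithinAt
  · intro s hs
    rw [interior_Ioi] at hs
    rw [(hd s hs).deriv]
    have hs0 : (0 : ℝ) < s := hs
    have : 0 ≤ 2 * K s ^ 2 / s := by positivity
    linarith

theorem abs_le_of_En {a c s : ℝ} (ha : 0 < a) (hs : a ≤ s) (hc : 0 ≤ c) (h : En a ≤ c ^ 2) :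
    |J s| ≤ c ∧ |K s| ≤ c := by
  have h1 : En s ≤ En a := En_anti ha (lt_of_lt_of_le ha hs) hs
  unfold En at h1 h
  constructor
  · apply abs_le_of_sq_le_sq _ hc
    nlinarith [sq_nonneg (K s)]
  · apply abs_le_of_sq_le_sq _ hc
    nlinarith [sq_nonneg (J s)]

/-- Lipschitz bound to the right -/
theorem lip {a c s s' : ℝ} (ha : 0 < a) (hs : a ≤ s) (hs' : a ≤ s') (hc : 0 ≤ c)
    (h : En a ≤ c ^ 2) : J s - c * |s' - s| ≤ J s' := by
  have hb : ∀ x ∈ Ici a, ‖-K x‖ ≤ c := by
    intro x hx
    rw [norm_neg, Real.norm_eq_abs]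
    exact (abs_le_of_En ha hx hc h).2
  have h1 := (convex_Ici a).norm_image_sub_le_of_norm_hasDerivWithin_le
    (fun x _ => (J_deriv x).hasDerivWithinAt) hb (show s ∈ Ici a from hs) (show s' ∈ Ici a from hs')
  rw [Real.norm_eq_abs, Real.norm_eq_abs] at h1
  have h2 := (abs_le.1 h1).1
  linarith

end Pool.Agent.N862.TR
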