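import Pool.Agent.N862.TR.Key

/-!
Averages over the directions and the final contradiction. (helper862)
-/

set_option autoImplicit false

open MeasureTheory Set Complex FourierTransform
open scoped ENNReal

namespace Pool.Agent.N862.TR

theorem J_cont : Continuous J := by
  rw [continuous_iff_continuousAt]
  exact fun s => (J_deriv s).continuousAt

theorem J_abs (s : ℝ) : |J s| ≤ 1 := by
  unfold J
  rw [abs_mul, abs_of_pos (inv_pos.2 Real.pi_pos)]
  have h := intervalIntegral.norm_integral_le_of_norm_le_const (a := 0) (b := Real.pi) (C := 1)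
    (f := fun θ => Real.cos (s * Real.sin θ)) (fun θ _ => by
      rw [Real.norm_eq_abs]; exact Real.abs_cos_le_one _)
  rw [Real.norm_eq_abs, one_mul, sub_zero, abs_of_pos Real.pi_pos] at h
  calc Real.pi⁻¹ * |∫ θ in (0 : ℝ)..Real.pi, Real.cos (s * Real.sin θ)|
      ≤ Real.pi⁻¹ * Real.pi := mul_le_mul_of_nonneg_left h (inv_pos.2 Real.pi_pos).le
    _ = 1 := inv_mul_cancel₀ Real.pi_ne_zero

theorem W_cont {f : ℂ → ℝ} (hf : AEMeasurable f) (hpm : ∀ x, f x = 1 ∨ f x = -1) (R : ℝ) :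
    Continuous (𝓕 (gg f R)) :=
  VectorFourier.fourierIntegral_continuous (L := innerₗ ℂ) Real.continuous_fourierChar
    continuous_inner (memLp_one_iff_integrable.1 (gg_memLp hf hpm R 1))

theorem W_int {f : ℂ → ℝ} (hf : AEMeasurable f) (hpm : ∀ x, f x = 1 ∨ f x = -1) (R : ℝ)
    (hR : 0 ≤ R) : Integrable (fun ξ => ‖𝓕 (gg f R) ξ‖ ^ 2) ∧
      ∫ ξ, ‖𝓕 (gg f R) ξ‖ ^ 2 = Real.pi * R ^ 2 := by
  obtain ⟨h1, h2⟩ := planch (memLp_one_iff_integrable.1 (gg_memLp hf hpm R 1))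
    (gg_memLp hf hpm R 2)
  refine ⟨h1, ?_⟩
  rw [h2]
  simp only [gg_sq hpm]
  exact (vol_ball R hR).2

/-- the bound after the average over the directions -/
theorem key {f : ℂ → ℝ} (hf : AEMeasurable f) (hpm : ∀ x, f x = 1 ∨ f x = -1) {r R : ℝ}
    (hr : 0 < r) (hR : r ≤ R) (hav : Av f r) :
    ∫ ξ, ‖𝓕 (gg f R) ξ‖ ^ 2 * (3 + 6 * J (2 * Real.pi * r * ‖ξ‖)) ≤
      Real.pi * (R ^ 2 + 34 * R * r + r ^ 2) := by
  obtain ⟨hWi, -⟩ := W_int hf hpm R (by linarith)
  have hWc := W_cont hf hpm R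
  obtain ⟨V, hV⟩ : ∃ V : ℝ → ℂ, V = fun θ => (r : ℂ) * Complex.exp ((θ : ℝ) * I) := ⟨_, rfl⟩
  have hVc : Continuous V := by rw [hV]; fun_prop
  have hVn : ∀ θ, ‖V θ‖ = r := by
    intro θ
    rw [hV]
    simp only [norm_mul, Complex.norm_exp_ofReal_mul_I, mul_one, Complex.norm_real,
      Real.norm_eq_abs, abs_of_pos hr]
  obtain ⟨Φ, hΦ⟩ : ∃ Φ : ℝ → ℂ → ℝ, Φ = fun θ ξ => ‖𝓕 (gg f R) ξ‖ ^ 2 *
      (3 + 2 * Real.cos (ph (V θ) ξ) + 2 * Real.cos (ph (om * V θ) ξ) +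
        2 * Real.cos (ph ((1 - om) * V θ) ξ)) := ⟨_, rfl⟩
  have hΦc : Continuous (Function.uncurry Φ) := by
    rw [hΦ]
    unfold Function.uncurry ph
    fun_prop
  have hΦb : ∀ θ ξ, |Φ θ ξ| ≤ 9 * ‖𝓕 (gg f R) ξ‖ ^ 2 := by
    intro θ ξ
    rw [hΦ]
    simp only
    rw [abs_mul, abs_of_nonneg (sq_nonneg _), mul_comm (9 : ℝ)]
    apply mul_le_mul_of_nonneg_left _ (sq_nonneg _)
    have c1 := abs_le.1 (Real.abs_cos_le_one (ph (V θ) ξ))
    have c2 := abs_le.1 (Real.abs_cos_le_one (ph (om * V θ) ξ))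
    have c3 := abs_le.1 (Real.abs_cos_le_one (ph ((1 - om) * V θ) ξ))
    rw [abs_le]
    constructor <;> linarith [c1.1, c1.2, c2.1, c2.2, c3.1, c3.2]
  obtain ⟨μ, hμ⟩ : ∃ μ : Measure ℝ, μ = volume.restrict (Set.Ioc 0 (2 * Real.pi)) := ⟨_, rfl⟩
  have hμf : IsFiniteMeasure μ := by
    rw [hμ]
    exact ⟨by rw [Measure.restrict_apply_univ]; exact measure_Ioc_lt_top⟩
  have hμr : μ.real Set.univ = 2 * Real.pi := by
    rw [hμ, Measure.real, Measure.restrict_apply_univ, Real.volume_Ioc, sub_zero,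
      ENNReal.toReal_ofReal (by positivity)]
  have hint : Integrable (Function.uncurry Φ) (μ.prod volume) := by
    have h1 : Integrable (fun p : ℝ × ℂ => 9 * ‖𝓕 (gg f R) p.2‖ ^ 2) (μ.prod volume) :=
      (hWi.comp_snd μ).const_mul 9
    refine h1.mono' hΦc.aestronglyMeasurable (Filter.Eventually.of_forall fun p => ?_)
    rw [Real.norm_eq_abs]
    exact hΦb p.1 p.2
  have hswap := integral_integral_swap hint
  have hleft : ∫ θ, (∫ ξ, Φ θ ξ) ∂μ ≤ 2 * Real.pi * (Real.pi * (R ^ 2 + 34 * R * r + r ^ 2)) := by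
    have h1 : ∫ θ, (∫ ξ, Φ θ ξ) ∂μ ≤ ∫ _, Real.pi * (R ^ 2 + 34 * R * r + r ^ 2) ∂μ := by
      apply integral_mono hint.integral_prod_left (integrable_const _)
      intro θ
      rw [hΦ]
      exact per_v hf hpm hr hR hav (V θ) (hVn θ)
    refine h1.trans (le_of_eq ?_)
    rw [integral_const, hμr, smul_eq_mul]
  have hright : ∫ ξ, ∫ θ, Φ θ ξ ∂μ =
      2 * Real.pi * ∫ ξ, ‖𝓕 (gg f R) ξ‖ ^ 2 * (3 + 6 * J (2 * Real.pi * r * ‖ξ‖)) := by
    rw [← integral_const_mul]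
    apply integral_congr_ae
    refine Filter.Eventually.of_forall fun ξ => ?_
    simp only
    have a1 := avg_dir 1 ξ (by simp) r hr.le
    have a2 := avg_dir om ξ om_norm r hr.le
    have a3 := avg_dir (1 - om) ξ om_norm' r hr.le
    simp only [one_mul] at a1
    have hcI : ∀ u : ℂ, IntervalIntegrable (fun θ : ℝ => Real.cos (ph (u * (r *
        Complex.exp ((θ : ℝ) * I))) ξ)) volume 0 (2 * Real.pi) := by
      intro u
      apply Continuous.intervalIntegrable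
      unfold ph
      fun_prop
    have hcI1 : IntervalIntegrable (fun θ : ℝ => Real.cos (ph (r *
        Complex.exp ((θ : ℝ) * I)) ξ)) volume 0 (2 * Real.pi) := by
      have := hcI 1
      simpa only [one_mul] using this
    rw [hμ, ← intervalIntegral.integral_of_le (by positivity), hΦ, hV]
    simp only
    rw [intervalIntegral.integral_const_mul, intervalIntegral.integral_add
      (((intervalIntegrable_const.add (hcI1.const_mul 2)).add ((hcI om).const_mul 2)))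
      ((hcI (1 - om)).const_mul 2), intervalIntegral.integral_add
      (intervalIntegrable_const.add (hcI1.const_mul 2)) ((hcI om).const_mul 2),
      intervalIntegral.integral_add intervalIntegrable_const (hcI1.const_mul 2),
      intervalIntegral.integral_const_mul, intervalIntegral.integral_const_mul,
      intervalIntegral.integral_const_mul, a1, a2, a3, intervalIntegral.integral_const]
    rw [smul_eq_mul]
    ring
  rw [hright] at hswap
  rw [hswap] at hleft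
  exact le_of_mul_le_mul_left hleft (by positivity)

/-- a measurable colouring avoids at most one of two sides -/
theorem two_sides {f : ℂ → ℝ} (hf : AEMeasurable f) (hpm : ∀ x, f x = 1 ∨ f x = -1) {d d' κ : ℝ}
    (hd : 0 < d) (hd' : 0 < d') (hκ : 0 < κ)
    (hJ : ∀ x : ℝ, 0 ≤ x → -(2 / 3) + κ ≤ J (d * x) + J (d' * x))
    (h1 : Av f d) (h2 : Av f d') : False := by
  obtain ⟨R, hR⟩ : ∃ R : ℝ, R = 100 * (d + d') * (1 + 1 / κ) := ⟨_, rfl⟩
  have hκ' : 0 < 1 / κ := by positivity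
  have hR1 : 100 * (d + d') ≤ R := by
    rw [hR]
    nlinarith [mul_pos (show 0 < 100 * (d + d') by positivity) hκ']
  have hR2 : 100 * (d + d') ≤ κ * R := by
    rw [hR]
    have : κ * (100 * (d + d') * (1 + 1 / κ)) = 100 * (d + d') * κ + 100 * (d + d') := by
      field_simp
    rw [this]
    nlinarith [mul_pos (show 0 < 100 * (d + d') by positivity) hκ]
  have hR0 : 0 < R := by linarith
  have k1 := key hf hpm hd (by linarith) h1 (R := R)
  have k2 := key hf hpm hd' (by linarith) h2 (R := R)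
  obtain ⟨hWi, hWe⟩ := W_int hf hpm R hR0.le
  have hWc := W_cont hf hpm R
  have hi : ∀ r : ℝ, Integrable (fun ξ => ‖𝓕 (gg f R) ξ‖ ^ 2 *
      (3 + 6 * J (2 * Real.pi * r * ‖ξ‖))) := by
    intro r
    have hc : Continuous (fun ξ => ‖𝓕 (gg f R) ξ‖ ^ 2 * (3 + 6 * J (2 * Real.pi * r * ‖ξ‖))) := by
      have := J_cont
      fun_prop
    refine (hWi.const_mul 9).mono' hc.aestronglyMeasurable (Filter.Eventually.of_forall fun ξ => ?_)
    rw [Real.norm_eq_abs, abs_mul, abs_of_nonneg (sq_nonneg _), mul_comm]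
    apply mul_le_mul_of_nonneg_right _ (sq_nonneg _)
    have := abs_le.1 (J_abs (2 * Real.pi * r * ‖ξ‖))
    rw [abs_le]
    constructor <;> linarith [this.1, this.2]
  have k3 : (2 + 6 * κ) * (Real.pi * R ^ 2) ≤
      ∫ ξ, (‖𝓕 (gg f R) ξ‖ ^ 2 * (3 + 6 * J (2 * Real.pi * d * ‖ξ‖)) +
        ‖𝓕 (gg f R) ξ‖ ^ 2 * (3 + 6 * J (2 * Real.pi * d' * ‖ξ‖))) := by
    rw [← hWe, ← integral_const_mul]
    apply integral_mono (hWi.const_mul _) ((hi d).add (hi d'))
    intro ξ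
    simp only
    have h3 := hJ (2 * Real.pi * ‖ξ‖) (by positivity)
    rw [show d * (2 * Real.pi * ‖ξ‖) = 2 * Real.pi * d * ‖ξ‖ by ring,
      show d' * (2 * Real.pi * ‖ξ‖) = 2 * Real.pi * d' * ‖ξ‖ by ring] at h3
    have h4 : 0 ≤ ‖𝓕 (gg f R) ξ‖ ^ 2 := sq_nonneg _
    have h5 := mul_le_mul_of_nonneg_left h3 h4
    simp only [Pi.add_apply]
    linarith
  rw [integral_add (hi d) (hi d')] at k3
  have k4 : (2 + 6 * κ) * (Real.pi * R ^ 2) ≤ Real.pi * (R ^ 2 + 34 * R * d + d ^ 2) +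
      Real.pi * (R ^ 2 + 34 * R * d' + d' ^ 2) := by linarith
  have k5 : (2 + 6 * κ) * R ^ 2 ≤ (R ^ 2 + 34 * R * d + d ^ 2) + (R ^ 2 + 34 * R * d' + d' ^ 2) := by
    have hpi := Real.pi_pos
    have : Real.pi * ((2 + 6 * κ) * R ^ 2) ≤
        Real.pi * ((R ^ 2 + 34 * R * d + d ^ 2) + (R ^ 2 + 34 * R * d' + d' ^ 2)) := by linarith
    exact le_of_mul_le_mul_left this hpi
  have k6 : 6 * (κ * R) * R ≤ 34 * R * (d + d') + d ^ 2 + d' ^ 2 := by nlinarith
  have k7 : 6 * (100 * (d + d')) * R ≤ 6 * (κ * R) * R := by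
    apply mul_le_mul_of_nonneg_right _ hR0.le
    linarith
  have k8 : d ^ 2 + d' ^ 2 ≤ (d + d') * R := by
    nlinarith [mul_pos hd hd', mul_le_mul_of_nonneg_left hR1 (show 0 ≤ d + d' by linarith)]
  nlinarith [mul_pos (show 0 < d + d' by linarith) hR0]

end Pool.Agent.N862.TR
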