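import Pool.Agent.N862.TR.Num2
import Pool.Agent.H153R4.Pl

/-!
Fourier analysis of two-colourings without monochromatic equilateral triangles. (helper862)
-/

set_option autoImplicit false

open MeasureTheory Set Complex FourierTransform
open scoped ENNReal

namespace Pool.Agent.N862.TR

/-- phase -/
noncomputable def ph (v ξ : ℂ) : ℝ := 2 * Real.pi * inner ℝ v ξ

theorem four_shift (g : ℂ → ℂ) (v ξ : ℂ) :
    𝓕 (fun x => g (x + v)) ξ = Complex.exp ((ph v ξ : ℝ) * I) * 𝓕 g ξ := by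
  have h := congrFun (VectorFourier.fourierIntegral_comp_add_right Real.fourierChar volume
    (innerₗ ℂ) g v) ξ
  have h2 : 𝓕 (fun x => g (x + v)) ξ = Real.fourierChar (innerₗ ℂ v ξ) • 𝓕 g ξ := h
  rw [h2, Circle.smul_def, Real.fourierChar_apply, smul_eq_mul]
  unfold ph
  simp only [innerₗ_apply_apply]

theorem four_add {f g : ℂ → ℂ} (hf : Integrable f) (hg : Integrable g) (ξ : ℂ) :
    𝓕 (fun x => f x + g x) ξ = 𝓕 f ξ + 𝓕 g ξ :=
  congrFun (VectorFourier.fourierIntegral_add (L := innerₗ ℂ) Real.continuous_fourierChar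
    continuous_inner hf hg) ξ

theorem norm_three (a b : ℝ) : ‖(1 : ℂ) + Complex.exp ((a : ℝ) * I) + Complex.exp ((b : ℝ) * I)‖ ^ 2 =
    3 + 2 * Real.cos a + 2 * Real.cos b + 2 * Real.cos (a - b) := by
  rw [← Complex.normSq_eq_norm_sq, Complex.normSq_apply, Complex.exp_mul_I, Complex.exp_mul_I]
  simp only [add_re, add_im, one_re, one_im, mul_re, mul_im, I_re, I_im, mul_zero, mul_one,
    zero_add, ← Complex.ofReal_cos, ← Complex.ofReal_sin, ofReal_re, ofReal_im, sub_zero, add_zero,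
    sub_self]
  rw [Real.cos_sub]
  nlinarith [Real.sin_sq_add_cos_sq a, Real.sin_sq_add_cos_sq b]

/-- the average over the directions -/
theorem avg_dir (u ξ : ℂ) (hu : ‖u‖ = 1) (r : ℝ) (hr : 0 ≤ r) :
    ∫ θ in (0 : ℝ)..(2 * Real.pi), Real.cos (ph (u * (r * Complex.exp ((θ : ℝ) * I))) ξ) =
      2 * Real.pi * J (2 * Real.pi * r * ‖ξ‖) := by
  obtain ⟨z, hz⟩ : ∃ z : ℂ, z = (starRingEnd ℂ) u * ξ := ⟨_, rfl⟩
  have hzn : ‖z‖ = ‖ξ‖ := by rw [hz, norm_mul, RCLike.norm_conj, hu, one_mul]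
  obtain ⟨c, hc⟩ : ∃ c : ℝ, c = 2 * Real.pi * r * ‖ξ‖ := ⟨_, rfl⟩
  have h1 : ∀ θ : ℝ, ph (u * (r * Complex.exp ((θ : ℝ) * I))) ξ =
      c * Real.sin (θ + (Real.pi / 2 - z.arg)) := by
    intro θ
    unfold ph
    rw [Complex.inner]
    have e1 : (starRingEnd ℂ) (u * (r * Complex.exp ((θ : ℝ) * I))) * ξ =
        ((r * ‖z‖ : ℝ) : ℂ) * Complex.exp (((z.arg - θ : ℝ) : ℂ) * I) := by
      have e2 : (starRingEnd ℂ) (Complex.exp ((θ : ℝ) * I)) = Complex.exp (-((θ : ℝ) * I)) := by
        rw [← Complex.exp_conj]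
        simp
      rw [map_mul, map_mul, e2, Complex.conj_ofReal]
      have e3 := Complex.norm_mul_exp_arg_mul_I z
      have e4 : Complex.exp (((z.arg - θ : ℝ) : ℂ) * I) =
          Complex.exp (z.arg * I) * Complex.exp (-((θ : ℝ) * I)) := by
        rw [← Complex.exp_add]
        congr 1
        push_cast
        ring
      rw [e4]
      calc (starRingEnd ℂ) u * (↑r * Complex.exp (-((θ : ℝ) * I))) * ξ
          = r * ((starRingEnd ℂ) u * ξ) * Complex.exp (-((θ : ℝ) * I)) := by ring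
        _ = r * (‖z‖ * Complex.exp (z.arg * I)) * Complex.exp (-((θ : ℝ) * I)) := by
            rw [e3, hz]
        _ = _ := by push_cast; ring
    rw [mul_comm ξ, e1, Complex.re_ofReal_mul, Complex.exp_ofReal_mul_I_re]
    have e5 : Real.sin (θ + (Real.pi / 2 - z.arg)) = Real.cos (z.arg - θ) := by
      rw [show θ + (Real.pi / 2 - z.arg) = Real.pi / 2 - (z.arg - θ) by ring,
        Real.sin_pi_div_two_sub]
    rw [e5, hc, hzn]
    ring
  simp only [h1]
  have hper : Function.Periodic (fun θ => Real.cos (c * Real.sin θ)) (2 * Real.pi) := by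
    intro θ
    simp only [Real.sin_add_two_pi]
  have h2 := intervalIntegral.integral_comp_add_right (a := 0) (b := 2 * Real.pi)
    (fun θ => Real.cos (c * Real.sin θ)) (Real.pi / 2 - z.arg)
  rw [h2, zero_add, add_comm (2 * Real.pi), hper.intervalIntegral_add_eq _ 0, zero_add]
  have hint : ∀ a b : ℝ, IntervalIntegrable (fun θ => Real.cos (c * Real.sin θ)) volume a b :=
    fun a b => (by fun_prop : Continuous fun θ : ℝ => Real.cos (c * Real.sin θ)).intervalIntegrable _ _
  rw [← intervalIntegral.integral_add_adjacent_intervals (hint 0 Real.pi)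
    (hint Real.pi (2 * Real.pi))]
  have h3 := intervalIntegral.integral_comp_add_right (a := 0) (b := Real.pi)
    (fun θ => Real.cos (c * Real.sin θ)) Real.pi
  simp only [Real.sin_add_pi, mul_neg, Real.cos_neg, zero_add] at h3
  rw [show Real.pi + Real.pi = 2 * Real.pi by ring] at h3
  rw [← h3, ← hc]
  unfold J
  field_simp
  ring

theorem planch {h : ℂ → ℂ} (h1 : Integrable h) (h2 : MemLp h 2) :
    Integrable (fun ξ => ‖𝓕 h ξ‖ ^ 2) ∧ ∫ ξ, ‖𝓕 h ξ‖ ^ 2 = ∫ x, ‖h x‖ ^ 2 := by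
  have hpl := Pool.Agent.H153R4.plancherel h h1 h2
  have hcont : Continuous (𝓕 h) :=
    VectorFourier.fourierIntegral_continuous (L := innerₗ ℂ) Real.continuous_fourierChar
      continuous_inner h1
  have e1 : ∀ z : ℂ, ENNReal.ofReal (‖z‖ ^ 2) = ‖z‖ₑ ^ 2 := by
    intro z
    rw [ENNReal.ofReal_pow (norm_nonneg _), ofReal_norm]
  have hsq : Integrable (fun x => ‖h x‖ ^ 2) := h2.integrable_norm_pow (by norm_num)
  have hfin : ∫⁻ x, ‖h x‖ₑ ^ 2 < ⊤ := by
    have := hsq.lintegral_lt_top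
    simpa only [e1] using this
  have hm : AEStronglyMeasurable (fun ξ => ‖𝓕 h ξ‖ ^ 2) volume :=
    (hcont.norm.pow 2).aestronglyMeasurable
  constructor
  · refine ⟨hm, ?_⟩
    rw [hasFiniteIntegral_iff_ofReal (Filter.Eventually.of_forall fun ξ => by positivity)]
    simp only [e1]
    rw [hpl]
    exact hfin
  · rw [integral_eq_lintegral_of_nonneg_ae (Filter.Eventually.of_forall fun ξ => sq_nonneg _) hm,
      integral_eq_lintegral_of_nonneg_ae (Filter.Eventually.of_forall fun ξ => sq_nonneg _)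
      hsq.aestronglyMeasurable]
    simp only [e1]
    rw [hpl]

theorem vol_ball (ρ : ℝ) (hρ : 0 ≤ ρ) :
    Integrable ((Metric.closedBall (0 : ℂ) ρ).indicator (fun _ => (1 : ℝ))) ∧
      ∫ x, (Metric.closedBall (0 : ℂ) ρ).indicator (fun _ => (1 : ℝ)) x = Real.pi * ρ ^ 2 := by
  have hs : MeasurableSet (Metric.closedBall (0 : ℂ) ρ) := Metric.isClosed_closedBall.measurableSet
  constructor
  · rw [integrable_indicator_iff hs]
    exact integrableOn_const (hs := (measure_closedBall_lt_top (μ := volume)).ne)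
  · rw [integral_indicator hs, setIntegral_const, smul_eq_mul, mul_one, Measure.real,
      Complex.volume_closedBall, ENNReal.toReal_mul, ENNReal.toReal_pow, ENNReal.toReal_ofReal hρ]
    simp
    ring

end Pool.Agent.N862.TR
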