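import Pool.Agent.N862.TR.Fou

/-!
Two-colourings of the plane without monochromatic equilateral triangles of side `r`: the bound for
the Fourier transform. (helper862)
-/

set_option autoImplicit false

open MeasureTheory Set Complex FourierTransform
open scoped ENNReal

namespace Pool.Agent.N862.TR

/-- sixth root of unity -/
noncomputable def om : ℂ := ⟨1 / 2, Real.sqrt 3 / 2⟩

theorem om_norm : ‖om‖ = 1 := by
  have h : ‖om‖ ^ 2 = 1 := by
    rw [← Complex.normSq_eq_norm_sq, Complex.normSq_apply]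
    unfold om
    have := Real.sq_sqrt (show (0 : ℝ) ≤ 3 by norm_num)
    nlinarith
  have h0 := norm_nonneg om
  nlinarith

theorem om_norm' : ‖1 - om‖ = 1 := by
  have h : ‖1 - om‖ ^ 2 = 1 := by
    rw [← Complex.normSq_eq_norm_sq, Complex.normSq_apply]
    unfold om
    simp only [sub_re, sub_im, one_re, one_im]
    have := Real.sq_sqrt (show (0 : ℝ) ≤ 3 by norm_num)
    nlinarith
  have h0 := norm_nonneg (1 - om)
  nlinarith

/-- no monochromatic equilateral triangle of side `r` -/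
def Av (f : ℂ → ℝ) (r : ℝ) : Prop := ∀ x y z : ℂ, dist x y = r → dist y z = r → dist x z = r →
  ¬ (f x = f y ∧ f y = f z)

/-- the truncated colouring -/
noncomputable def gg (f : ℂ → ℝ) (R : ℝ) : ℂ → ℂ :=
  (Metric.closedBall (0 : ℂ) R).indicator (fun x => (f x : ℂ))

theorem gg_memLp {f : ℂ → ℝ} (hf : AEMeasurable f) (hpm : ∀ x, f x = 1 ∨ f x = -1) (R : ℝ)
    (p : ℝ≥0∞) : MemLp (gg f R) p volume := by
  unfold gg
  rw [memLp_indicator_iff_restrict Metric.isClosed_closedBall.measurableSet]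
  have : IsFiniteMeasure (volume.restrict (Metric.closedBall (0 : ℂ) R)) :=
    ⟨by rw [Measure.restrict_apply_univ]; exact measure_closedBall_lt_top⟩
  refine MemLp.of_bound
    (Complex.measurable_ofReal.comp_aemeasurable hf.restrict).aestronglyMeasurable 1
    (Filter.Eventually.of_forall fun x => ?_)
  show ‖((f x : ℝ) : ℂ)‖ ≤ 1
  rcases hpm x with h | h <;> rw [h] <;> simp

theorem gg_in {f : ℂ → ℝ} {R : ℝ} {x : ℂ} (h : ‖x‖ ≤ R) : gg f R x = (f x : ℂ) := by
  unfold gg
  rw [Set.indicator_of_mem]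
  rwa [mem_closedBall_zero_iff]

theorem gg_out {f : ℂ → ℝ} {R : ℝ} {x : ℂ} (h : R < ‖x‖) : gg f R x = 0 := by
  unfold gg
  rw [Set.indicator_of_notMem]
  rw [mem_closedBall_zero_iff]
  exact not_le.2 h

theorem gg_norm {f : ℂ → ℝ} (hpm : ∀ x, f x = 1 ∨ f x = -1) (R : ℝ) (x : ℂ) :
    ‖gg f R x‖ ≤ 1 := by
  rcases le_or_gt ‖x‖ R with h | h
  · rw [gg_in h]
    rcases hpm x with h | h <;> rw [h] <;> simp
  · rw [gg_out h]; simp

theorem gg_sq {f : ℂ → ℝ} (hpm : ∀ x, f x = 1 ∨ f x = -1) (R : ℝ) (x : ℂ) :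
    ‖gg f R x‖ ^ 2 = (Metric.closedBall (0 : ℂ) R).indicator (fun _ => (1 : ℝ)) x := by
  rcases le_or_gt ‖x‖ R with h | h
  · rw [gg_in h, Set.indicator_of_mem (by rwa [mem_closedBall_zero_iff])]
    rcases hpm x with h | h <;> rw [h] <;> simp
  · rw [gg_out h, Set.indicator_of_notMem (by rw [mem_closedBall_zero_iff]; exact not_le.2 h)]
    simp

theorem ptw {f : ℂ → ℝ} (hpm : ∀ x, f x = 1 ∨ f x = -1) {r R : ℝ} (hr : 0 < r)
    (hav : Av f r) (v : ℂ) (hv : ‖v‖ = r) (x : ℂ) :
    ‖gg f R x + gg f R (x + v) + gg f R (x + om * v)‖ ^ 2 ≤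
      9 * (Metric.closedBall (0 : ℂ) (R + r)).indicator (fun _ => (1 : ℝ)) x -
        8 * (Metric.closedBall (0 : ℂ) (R - r)).indicator (fun _ => (1 : ℝ)) x := by
  have hov : ‖om * v‖ = r := by rw [norm_mul, om_norm, one_mul, hv]
  rcases le_or_gt ‖x‖ (R - r) with h | h
  · rw [Set.indicator_of_mem (by rw [mem_closedBall_zero_iff]; linarith),
      Set.indicator_of_mem (by rwa [mem_closedBall_zero_iff])]
    have h1 : ‖x + v‖ ≤ R := (norm_add_le _ _).trans (by linarith)
    have h2 : ‖x + om * v‖ ≤ R := (norm_add_le _ _).trans (by linarith)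
    rw [gg_in (by linarith : ‖x‖ ≤ R), gg_in h1, gg_in h2]
    have d1 : dist x (x + v) = r := by rw [dist_self_add_right, hv]
    have d2 : dist (x + v) (x + om * v) = r := by
      rw [dist_add_left, dist_eq_norm, show v - om * v = (1 - om) * v by ring, norm_mul, om_norm',
        one_mul, hv]
    have d3 : dist x (x + om * v) = r := by rw [dist_self_add_right, hov]
    have h3 := hav x (x + v) (x + om * v) d1 d2 d3
    rcases hpm x with a | a <;> rcases hpm (x + v) with b | b <;>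
      rcases hpm (x + om * v) with c | c <;> rw [a, b, c] at h3 ⊢ <;> first
        | exact absurd ⟨rfl, rfl⟩ h3
        | (norm_num)
  rcases le_or_gt ‖x‖ (R + r) with h' | h'
  · rw [Set.indicator_of_mem (by rw [mem_closedBall_zero_iff]; linarith),
      Set.indicator_of_notMem (by rw [mem_closedBall_zero_iff]; exact not_le.2 h)]
    have h1 : ‖gg f R x + gg f R (x + v) + gg f R (x + om * v)‖ ≤ 3 := by
      refine (norm_add₃_le).trans ?_
      have a1 := gg_norm hpm R x
      have a2 := gg_norm hpm R (x + v)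
      have a3 := gg_norm hpm R (x + om * v)
      linarith
    have h0 := norm_nonneg (gg f R x + gg f R (x + v) + gg f R (x + om * v))
    nlinarith
  · have h1 : R < ‖x + v‖ := by
      have := norm_sub_le (x + v) v
      rw [add_sub_cancel_right] at this
      linarith
    have h2 : R < ‖x + om * v‖ := by
      have := norm_sub_le (x + om * v) (om * v)
      rw [add_sub_cancel_right] at this
      linarith
    rw [gg_out (by linarith : R < ‖x‖), gg_out h1, gg_out h2,
      Set.indicator_of_notMem (by rw [mem_closedBall_zero_iff]; exact not_le.2 h'),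
      Set.indicator_of_notMem (by rw [mem_closedBall_zero_iff]; exact not_le.2 h)]
    simp

theorem ph_sub (v ξ : ℂ) : ph v ξ - ph (om * v) ξ = ph ((1 - om) * v) ξ := by
  unfold ph
  rw [← mul_sub, ← inner_sub_left]
  congr 2
  ring

/-- the bound for one direction -/
theorem per_v {f : ℂ → ℝ} (hf : AEMeasurable f) (hpm : ∀ x, f x = 1 ∨ f x = -1) {r R : ℝ}
    (hr : 0 < r) (hR : r ≤ R) (hav : Av f r) (v : ℂ) (hv : ‖v‖ = r) :
    ∫ ξ, ‖𝓕 (gg f R) ξ‖ ^ 2 * (3 + 2 * Real.cos (ph v ξ) + 2 * Real.cos (ph (om * v) ξ) +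
      2 * Real.cos (ph ((1 - om) * v) ξ)) ≤ Real.pi * (R ^ 2 + 34 * R * r + r ^ 2) := by
  have hg : ∀ p, MemLp (gg f R) p volume := gg_memLp hf hpm R
  have hgs : ∀ w p, MemLp (fun x => gg f R (x + w)) p volume := fun w p =>
    (hg p).comp_measurePreserving (measurePreserving_add_right volume w)
  have i0 : Integrable (gg f R) := memLp_one_iff_integrable.1 (hg 1)
  have i1 : ∀ w, Integrable (fun x => gg f R (x + w)) := fun w =>
    memLp_one_iff_integrable.1 (hgs w 1)
  obtain ⟨h, hh⟩ : ∃ h : ℂ → ℂ, h = fun x => gg f R x + gg f R (x + v) + gg f R (x + om * v) :=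
    ⟨_, rfl⟩
  have hh1 : Integrable h := by
    rw [hh]
    exact (i0.add (i1 v)).add (i1 (om * v))
  have hh2 : MemLp h 2 := by
    rw [hh]
    exact ((hg 2).add (hgs v 2)).add (hgs (om * v) 2)
  have hF : ∀ ξ, ‖𝓕 h ξ‖ ^ 2 = ‖𝓕 (gg f R) ξ‖ ^ 2 * (3 + 2 * Real.cos (ph v ξ) +
      2 * Real.cos (ph (om * v) ξ) + 2 * Real.cos (ph ((1 - om) * v) ξ)) := by
    intro ξ
    have e1 : 𝓕 h ξ = (1 + Complex.exp ((ph v ξ : ℝ) * I) + Complex.exp ((ph (om * v) ξ : ℝ) * I)) *
        𝓕 (gg f R) ξ := by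
      have h4 : 𝓕 (fun x => gg f R x + gg f R (x + v) + gg f R (x + om * v)) ξ =
          𝓕 (fun x => gg f R x + gg f R (x + v)) ξ + 𝓕 (fun x => gg f R (x + om * v)) ξ :=
        four_add (f := fun x => gg f R x + gg f R (x + v)) (i0.add (i1 v)) (i1 _) ξ
      rw [hh, h4, four_add i0 (i1 v), four_shift, four_shift]
      ring
    rw [e1, norm_mul, mul_pow, norm_three, ph_sub]
    ring
  have hpl := (planch hh1 hh2).2
  simp only [hF] at hpl
  rw [hpl]
  obtain ⟨iA, eA⟩ := vol_ball (R + r) (by linarith)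
  obtain ⟨iB, eB⟩ := vol_ball (R - r) (by linarith)
  have h3 : ∫ x, ‖h x‖ ^ 2 ≤ ∫ x, (9 * (Metric.closedBall (0 : ℂ) (R + r)).indicator
      (fun _ => (1 : ℝ)) x - 8 * (Metric.closedBall (0 : ℂ) (R - r)).indicator
        (fun _ => (1 : ℝ)) x) := by
    apply integral_mono (hh2.integrable_norm_pow (by norm_num))
      ((iA.const_mul 9).sub (iB.const_mul 8))
    intro x
    rw [hh]
    exact ptw hpm hr hav v hv x
  refine h3.trans (le_of_eq ?_)
  rw [integral_sub (iA.const_mul 9) (iB.const_mul 8), integral_const_mul, integral_const_mul, eA,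
    eB]
  ring

end Pool.Agent.N862.TR
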