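import Pool.Agent.N862.TR.Tay

/-!
Numerical lower bounds for the Bessel function of order zero. (helper862)
-/

set_option autoImplicit false

open MeasureTheory Set

namespace Pool.Agent.N862.TR

theorem J_low (m : ℕ) {s : ℝ} (hs : 0 ≤ s) : jP (2 * m + 2) s ≤ J s := by
  have h := J_tay (2 * m + 1) hs
  have e : (-1 : ℝ) ^ (2 * m + 1 + 1) = 1 := by
    rw [show 2 * m + 1 + 1 = 2 * (m + 1) by ring, pow_mul]; simp
  rw [e] at h
  linarith

theorem J_up (m : ℕ) {s : ℝ} (hs : 0 ≤ s) : J s ≤ jP (2 * m + 1) s := by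
  have h := J_tay (2 * m) hs
  have e : (-1 : ℝ) ^ (2 * m + 1) = -1 := by
    rw [pow_succ, pow_mul]; simp
  rw [e] at h
  linarith

theorem K_low (m : ℕ) {s : ℝ} (hs : 0 ≤ s) : kP (2 * m + 2) s ≤ K s := by
  have h := K_tay (2 * m + 1) hs
  have e : (-1 : ℝ) ^ (2 * m + 1 + 1) = 1 := by
    rw [show 2 * m + 1 + 1 = 2 * (m + 1) by ring, pow_mul]; simp
  rw [e] at h
  linarith

theorem K_up (m : ℕ) {s : ℝ} (hs : 0 ≤ s) : K s ≤ kP (2 * m + 1) s := by
  have h := K_tay (2 * m) hs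
  have e : (-1 : ℝ) ^ (2 * m + 1) = -1 := by
    rw [pow_succ, pow_mul]; simp
  rw [e] at h
  linarith

theorem En_35 : En (7 / 2) ≤ (405 / 1000) ^ 2 := by
  have h1 := J_low 3 (s := 7 / 2) (by norm_num)
  have h2 := J_up 3 (s := 7 / 2) (by norm_num)
  have h3 := K_low 3 (s := 7 / 2) (by norm_num)
  have h4 := K_up 3 (s := 7 / 2) (by norm_num)
  norm_num [jP, kP, Finset.sum_range_succ, Nat.factorial] at h1 h2 h3 h4
  unfold En
  have a1 : (-3802 / 10000 : ℝ) ≤ J (7 / 2) := by linarith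
  have a2 : J (7 / 2) ≤ 3802 / 10000 := by linarith
  have a3 : (-1375 / 10000 : ℝ) ≤ K (7 / 2) := by linarith
  have a4 : K (7 / 2) ≤ 1375 / 10000 := by linarith
  nlinarith

theorem En_493 : En (493 / 100) ≤ (377 / 1000) ^ 2 := by
  have h1 := J_low 4 (s := 493 / 100) (by norm_num)
  have h2 := J_up 4 (s := 493 / 100) (by norm_num)
  have h3 := K_low 4 (s := 493 / 100) (by norm_num)
  have h4 := K_up 4 (s := 493 / 100) (by norm_num)
  norm_num [jP, kP, Finset.sum_range_succ, Nat.factorial] at h1 h2 h3 h4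
  unfold En
  have a1 : (-2003 / 10000 : ℝ) ≤ J (493 / 100) := by linarith
  have a2 : J (493 / 100) ≤ 2003 / 10000 := by linarith
  have a3 : (-3190 / 10000 : ℝ) ≤ K (493 / 100) := by linarith
  have a4 : K (493 / 100) ≤ 3190 / 10000 := by linarith
  nlinarith

theorem J_55 : (-69 / 10000 : ℝ) ≤ J (11 / 2) := by
  have h1 := J_low 4 (s := 11 / 2) (by norm_num)
  norm_num [jP, Finset.sum_range_succ, Nat.factorial] at h1
  linarith

theorem J_7 : (3000 / 10000 : ℝ) ≤ J 7 := by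
  have h1 := J_low 5 (s := 7) (by norm_num)
  norm_num [jP, Finset.sum_range_succ, Nat.factorial] at h1
  linarith

theorem En_7 : En 7 ≤ (3003 / 10000) ^ 2 := by
  have h1 := J_low 5 (s := 7) (by norm_num)
  have h2 := J_up 6 (s := 7) (by norm_num)
  have h3 := K_low 5 (s := 7) (by norm_num)
  have h4 := K_up 5 (s := 7) (by norm_num)
  norm_num [jP, kP, Finset.sum_range_succ, Nat.factorial] at h1 h2 h3 h4
  unfold En
  have a1 : (-3001 / 10000 : ℝ) ≤ J 7 := by linarith
  have a2 : J 7 ≤ 3001 / 10000 := by linarith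
  have a3 : (-48 / 10000 : ℝ) ≤ K 7 := by linarith
  have a4 : K 7 ≤ 48 / 10000 := by linarith
  nlinarith

theorem J_8 : (1716 / 10000 : ℝ) ≤ J 8 := by
  have h1 := J_low 6 (s := 8) (by norm_num)
  norm_num [jP, Finset.sum_range_succ, Nat.factorial] at h1
  linarith

theorem En_94 : En (47 / 5) ≤ (26 / 100) ^ 2 := by
  have h1 := J_low 6 (s := 47 / 5) (by norm_num)
  have h2 := J_up 6 (s := 47 / 5) (by norm_num)
  have h3 := K_low 6 (s := 47 / 5) (by norm_num)
  have h4 := K_up 6 (s := 47 / 5) (by norm_num)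
  norm_num [jP, kP, Finset.sum_range_succ, Nat.factorial] at h1 h2 h3 h4
  unfold En
  have a1 : (-1776 / 10000 : ℝ) ≤ J (47 / 5) := by linarith
  have a2 : J (47 / 5) ≤ 1776 / 10000 := by linarith
  have a3 : (-1840 / 10000 : ℝ) ≤ K (47 / 5) := by linarith
  have a4 : K (47 / 5) ≤ 1840 / 10000 := by linarith
  nlinarith

end Pool.Agent.N862.TR
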