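import Pool.Agent.N862.TR.Num

/-!
Lower bounds for the Bessel function of order zero. (helper862)
-/

set_option autoImplicit false

open MeasureTheory Set

namespace Pool.Agent.N862.TR

theorem J_35 {s : ℝ} (h0 : 0 ≤ s) (h1 : s ≤ 7 / 2) : -(405 / 1000 : ℝ) ≤ J s := by
  have h := J_low 2 h0
  norm_num [jP, Finset.sum_range_succ, Nat.factorial] at h
  obtain ⟨u, hu⟩ : ∃ u, u = 49 / 4 - s ^ 2 := ⟨_, rfl⟩
  have hu0 : 0 ≤ u := by nlinarith
  have hs2 : s ^ 2 = 49 / 4 - u := by linarith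
  have e4 : s ^ 4 = (49 / 4 - u) ^ 2 := by rw [← hs2]; ring
  have e6 : s ^ 6 = (49 / 4 - u) ^ 3 := by rw [← hs2]; ring
  have e8 : s ^ 8 = (49 / 4 - u) ^ 4 := by rw [← hs2]; ring
  have e10 : s ^ 10 = (49 / 4 - u) ^ 5 := by rw [← hs2]; ring
  rw [hs2, e4, e6, e8, e10] at h
  have p2 := pow_nonneg hu0 2
  have p3 := pow_nonneg hu0 3
  have p4 := pow_nonneg hu0 4
  have p5 := pow_nonneg hu0 5
  refine le_trans ?_ h
  ring_nf
  linarith

theorem J_29 {s : ℝ} (h0 : 0 ≤ s) (h1 : s ≤ 29 / 10) : -(26 / 100 : ℝ) ≤ J s := by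
  have h := J_low 2 h0
  norm_num [jP, Finset.sum_range_succ, Nat.factorial] at h
  obtain ⟨u, hu⟩ : ∃ u, u = 841 / 100 - s ^ 2 := ⟨_, rfl⟩
  have hu0 : 0 ≤ u := by nlinarith
  have hs2 : s ^ 2 = 841 / 100 - u := by linarith
  have e4 : s ^ 4 = (841 / 100 - u) ^ 2 := by rw [← hs2]; ring
  have e6 : s ^ 6 = (841 / 100 - u) ^ 3 := by rw [← hs2]; ring
  have e8 : s ^ 8 = (841 / 100 - u) ^ 4 := by rw [← hs2]; ring
  have e10 : s ^ 10 = (841 / 100 - u) ^ 5 := by rw [← hs2]; ring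
  rw [hs2, e4, e6, e8, e10] at h
  have p2 := pow_nonneg hu0 2
  have p3 := pow_nonneg hu0 3
  have p4 := pow_nonneg hu0 4
  have p5 := pow_nonneg hu0 5
  refine le_trans ?_ h
  ring_nf
  linarith

theorem J_all {s : ℝ} (h0 : 0 ≤ s) : -(405 / 1000 : ℝ) ≤ J s := by
  rcases le_total s (7 / 2) with h | h
  · exact J_35 h0 h
  · exact (abs_le.1 (abs_le_of_En (by norm_num) h (by norm_num) En_35).1).1

theorem J_far {s : ℝ} (h : 493 / 100 ≤ s) : -(26 / 100 : ℝ) ≤ J s := by
  rcases le_total s 6 with h6 | h6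
  · have h1 := lip (a := 493 / 100) (s := 11 / 2) (s' := s) (by norm_num) (by norm_num) h
      (by norm_num) En_493
    have h2 : |s - 11 / 2| ≤ 57 / 100 := by rw [abs_le]; constructor <;> linarith
    have h3 := J_55
    nlinarith
  rcases le_total s 8 with h8 | h8
  · have h1 := lip (a := 493 / 100) (s := 7) (s' := s) (by norm_num) (by norm_num) h
      (by norm_num) En_493
    have h2 : |s - 7| ≤ 1 := by rw [abs_le]; constructor <;> linarith
    have h3 := J_7
    nlinarith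
  rcases le_total s (47 / 5) with h9 | h9
  · have h1 := lip (a := 7) (s := 8) (s' := s) (by norm_num) (by norm_num) (by linarith)
      (by norm_num) En_7
    have h2 : |s - 8| ≤ 14 / 10 := by rw [abs_le]; constructor <;> linarith
    have h3 := J_8
    nlinarith
  · exact (abs_le.1 (abs_le_of_En (by norm_num) h9 (by norm_num) En_94).1).1

/-- the main estimate -/
theorem J_two {s t : ℝ} (hs : 0 ≤ s) (ht : 17 / 10 * s ≤ t) : -(665 / 1000 : ℝ) ≤ J s + J t := by
  have ht0 : 0 ≤ t := by linarith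
  rcases le_total s (29 / 10) with h | h
  · have h1 := J_29 hs h
    have h2 := J_all ht0
    linarith
  · have h1 := J_all hs
    have h2 := J_far (s := t) (by linarith)
    linarith

end Pool.Agent.N862.TR
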