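import Pool.Agent.N862.TR.Num2

/-!
The sum of two values of the Bessel function of order zero at arguments of ratio at least `7 / 5`.
(helper862)
-/

set_option autoImplicit false

open MeasureTheory Set

namespace Pool.Agent.N862.TR

theorem K_nonneg {s : ℝ} (h0 : 0 ≤ s) (h1 : s ≤ 7 / 2) : 0 ≤ K s := by
  have h := K_low 1 h0
  norm_num [kP, Finset.sum_range_succ, Nat.factorial] at h
  obtain ⟨u, hu⟩ : ∃ u, u = 49 / 4 - s ^ 2 := ⟨_, rfl⟩
  have hu0 : 0 ≤ u := by nlinarith
  have hs2 : s ^ 2 = 49 / 4 - u := by linarith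
  have p2 := pow_nonneg hu0 2
  have p3 := pow_nonneg hu0 3
  have e : s / 2 + -(s ^ 3) / 16 + s ^ 5 / 384 + -(s ^ 7) / 18432 =
      s * (1 / 2 - (49 / 4 - u) / 16 + (49 / 4 - u) ^ 2 / 384 - (49 / 4 - u) ^ 3 / 18432) := by
    rw [← hs2]; ring
  rw [e] at h
  refine le_trans (mul_nonneg h0 ?_) h
  ring_nf
  linarith

theorem J_anti : AntitoneOn J (Icc 0 (7 / 2)) := by
  apply antitoneOn_of_deriv_nonpos (convex_Icc _ _)
  · intro s _
    exact (J_deriv s).continuousAt.continuousWithinAt
  · intro s _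
    exact (J_deriv s).differentiableAt.differentiableWithinAt
  · intro s hs
    rw [interior_Icc] at hs
    rw [(J_deriv s).deriv]
    have := K_nonneg hs.1.le hs.2.le
    linarith

theorem J_45 : J (9 / 2) ≤ -(3200 / 10000 : ℝ) := by
  have h1 := J_up 4 (s := 9 / 2) (by norm_num)
  norm_num [jP, Finset.sum_range_succ, Nat.factorial] at h1
  linarith

theorem K_418 : K (209 / 50) ≤ 0 := by
  have h1 := K_up 4 (s := 209 / 50) (by norm_num)
  norm_num [kP, Finset.sum_range_succ, Nat.factorial] at h1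
  linarith

theorem J_neg {s : ℝ} (h0 : 209 / 50 ≤ s) (h1 : s ≤ 493 / 100) : J s ≤ 0 := by
  have h2 := lip (a := 7 / 2) (s := s) (s' := 9 / 2) (by norm_num) (by linarith) (by norm_num)
    (by norm_num) En_35
  have h3 : |9 / 2 - s| ≤ 43 / 100 := by rw [abs_le]; constructor <;> linarith
  have h4 := J_45
  nlinarith

theorem sK_anti : AntitoneOn (fun s => s * K s) (Icc (209 / 50) (493 / 100)) := by
  have hd : ∀ s : ℝ, 0 < s → HasDerivAt (fun s => s * K s) (s * J s) s := by
    intro s hs
    have h := (hasDerivAt_id s).mul (K_deriv s hs.ne')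
    refine h.congr_deriv ?_
    simp only [id]
    field_simp
    ring
  apply antitoneOn_of_deriv_nonpos (convex_Icc _ _)
  · intro s hs
    exact (hd s (lt_of_lt_of_le (by norm_num) hs.1)).continuousAt.continuousWithinAt
  · intro s hs
    rw [interior_Icc] at hs
    exact (hd s (lt_trans (by norm_num) hs.1)).differentiableAt.differentiableWithinAt
  · intro s hs
    rw [interior_Icc] at hs
    have hs0 : 0 < s := lt_trans (by norm_num) hs.1
    rw [(hd s hs0).deriv]
    exact mul_nonpos_of_nonneg_of_nonpos hs0.le (J_neg hs.1.le hs.2.le)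

theorem K_nonpos {s : ℝ} (h0 : 209 / 50 ≤ s) (h1 : s ≤ 493 / 100) : K s ≤ 0 := by
  have h2 := sK_anti (show (209 / 50 : ℝ) ∈ Icc (209 / 50 : ℝ) (493 / 100) by
    constructor <;> norm_num) (show s ∈ Icc (209 / 50 : ℝ) (493 / 100) from ⟨h0, h1⟩) h0
  simp only at h2
  have h3 := K_418
  have hs0 : 0 < s := lt_of_lt_of_le (by norm_num) h0
  have h4 : s * K s ≤ 0 := h2.trans (mul_nonpos_of_nonneg_of_nonpos (by norm_num) h3)
  by_contra hcon
  rw [not_le] at hcon
  have := mul_pos hs0 hcon
  linarith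

theorem J_mono : MonotoneOn J (Icc (209 / 50) (493 / 100)) := by
  apply monotoneOn_of_deriv_nonneg (convex_Icc _ _)
  · intro s _
    exact (J_deriv s).continuousAt.continuousWithinAt
  · intro s _
    exact (J_deriv s).differentiableAt.differentiableWithinAt
  · intro s hs
    rw [interior_Icc] at hs
    rw [(J_deriv s).deriv]
    have := K_nonpos hs.1.le hs.2.le
    linarith

theorem J_ge {a m t : ℝ} (h0 : 209 / 50 ≤ a) (h1 : a ≤ 493 / 100) (hm : m ≤ J a)
    (hm' : m ≤ -(26 / 100)) (ht : a ≤ t) : m ≤ J t := by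
  rcases le_total t (493 / 100) with h | h
  · exact hm.trans (J_mono ⟨h0, h1⟩ ⟨h0.trans ht, h⟩ ht)
  · exact hm'.trans (J_far h)

theorem J_le {s b m : ℝ} (h0 : 0 ≤ s) (hb : b ≤ 7 / 2) (hm : m ≤ J b) (hs : s ≤ b) : m ≤ J s :=
  hm.trans (J_anti ⟨h0, hs.trans hb⟩ ⟨h0.trans hs, hb⟩ hs)

theorem a1 : -(3785 / 10000 : ℝ) ≤ J (2093 / 500) := by
  have h1 := J_low 4 (s := 2093 / 500) (by norm_num)
  norm_num [jP, Finset.sum_range_succ, Nat.factorial] at h1
  linarith

theorem a2 : -(3661 / 10000 : ℝ) ≤ J (427 / 100) := by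
  have h1 := J_low 4 (s := 427 / 100) (by norm_num)
  norm_num [jP, Finset.sum_range_succ, Nat.factorial] at h1
  linarith

theorem a3 : -(3486 / 10000 : ℝ) ≤ J (546 / 125) := by
  have h1 := J_low 4 (s := 546 / 125) (by norm_num)
  norm_num [jP, Finset.sum_range_succ, Nat.factorial] at h1
  linarith

theorem a4 : -(3314 / 10000 : ℝ) ≤ J (1113 / 250) := by
  have h1 := J_low 4 (s := 1113 / 250) (by norm_num)
  norm_num [jP, Finset.sum_range_succ, Nat.factorial] at h1
  linarith

theorem a5 : -(3087 / 10000 : ℝ) ≤ J (91 / 20) := by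
  have h1 := J_low 4 (s := 91 / 20) (by norm_num)
  norm_num [jP, Finset.sum_range_succ, Nat.factorial] at h1
  linarith

theorem a6 : -(2836 / 10000 : ℝ) ≤ J (581 / 125) := by
  have h1 := J_low 4 (s := 581 / 125) (by norm_num)
  norm_num [jP, Finset.sum_range_succ, Nat.factorial] at h1
  linarith

theorem a7 : -(2600 / 10000 : ℝ) ≤ J (119 / 25) := by
  have h1 := J_low 4 (s := 119 / 25) (by norm_num)
  norm_num [jP, Finset.sum_range_succ, Nat.factorial] at h1
  linarith

theorem b0 : -(2567 / 10000 : ℝ) ≤ J (299 / 100) := by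
  have h1 := J_low 3 (s := 299 / 100) (by norm_num)
  norm_num [jP, Finset.sum_range_succ, Nat.factorial] at h1
  linarith

theorem b1 : -(2766 / 10000 : ℝ) ≤ J (305 / 100) := by
  have h1 := J_low 3 (s := 305 / 100) (by norm_num)
  norm_num [jP, Finset.sum_range_succ, Nat.factorial] at h1 ⊢
  linarith

theorem b2 : -(2981 / 10000 : ℝ) ≤ J (312 / 100) := by
  have h1 := J_low 3 (s := 312 / 100) (by norm_num)
  norm_num [jP, Finset.sum_range_succ, Nat.factorial] at h1 ⊢
  linarith

theorem b3 : -(3149 / 10000 : ℝ) ≤ J (318 / 100) := by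
  have h1 := J_low 3 (s := 318 / 100) (by norm_num)
  norm_num [jP, Finset.sum_range_succ, Nat.factorial] at h1 ⊢
  linarith

theorem b4 : -(3328 / 10000 : ℝ) ≤ J (325 / 100) := by
  have h1 := J_low 3 (s := 325 / 100) (by norm_num)
  norm_num [jP, Finset.sum_range_succ, Nat.factorial] at h1 ⊢
  linarith

theorem b5 : -(3487 / 10000 : ℝ) ≤ J (332 / 100) := by
  have h1 := J_low 3 (s := 332 / 100) (by norm_num)
  norm_num [jP, Finset.sum_range_succ, Nat.factorial] at h1 ⊢
  linarith

theorem b6 : -(3643 / 10000 : ℝ) ≤ J (340 / 100) := by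
  have h1 := J_low 3 (s := 340 / 100) (by norm_num)
  norm_num [jP, Finset.sum_range_succ, Nat.factorial] at h1 ⊢
  linarith

/-- the main estimate for ratios at least `7 / 5` -/
theorem J_two' {s t : ℝ} (hs : 0 ≤ s) (ht : 7 / 5 * s ≤ t) : -(665 / 1000 : ℝ) ≤ J s + J t := by
  have ht0 : 0 ≤ t := by linarith
  rcases le_total s (299 / 100) with h0 | h0
  · have h1 := J_le hs (by norm_num) b0 h0
    have h2 := J_all ht0
    linarith
  rcases le_total s (305 / 100) with h1 | h1
  · have k1 := J_le hs (by norm_num) b1 h1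
    have k2 := J_ge (by norm_num) (by norm_num) a1 (by norm_num) (show 2093 / 500 ≤ t by linarith)
    linarith
  rcases le_total s (312 / 100) with h2 | h2
  · have k1 := J_le hs (by norm_num) b2 h2
    have k2 := J_ge (by norm_num) (by norm_num) a2 (by norm_num) (show 427 / 100 ≤ t by linarith)
    linarith
  rcases le_total s (318 / 100) with h3 | h3
  · have k1 := J_le hs (by norm_num) b3 h3
    have k2 := J_ge (by norm_num) (by norm_num) a3 (by norm_num) (show 546 / 125 ≤ t by linarith)
    linarith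
  rcases le_total s (325 / 100) with h4 | h4
  · have k1 := J_le hs (by norm_num) b4 h4
    have k2 := J_ge (by norm_num) (by norm_num) a4 (by norm_num) (show 1113 / 250 ≤ t by linarith)
    linarith
  rcases le_total s (332 / 100) with h5 | h5
  · have k1 := J_le hs (by norm_num) b5 h5
    have k2 := J_ge (by norm_num) (by norm_num) a5 (by norm_num) (show 91 / 20 ≤ t by linarith)
    linarith
  rcases le_total s (340 / 100) with h6 | h6
  · have k1 := J_le hs (by norm_num) b6 h6
    have k2 := J_ge (by norm_num) (by norm_num) a6 (by norm_num) (show 581 / 125 ≤ t by linarith)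
    linarith
  · have k1 := J_all hs
    have k2 := J_ge (by norm_num) (by norm_num) a7 (by norm_num) (show 119 / 25 ≤ t by linarith)
    linarith

end Pool.Agent.N862.TR
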