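import Pool.Agent.N862.TR.Num3

/-!
The sum of three values of the Bessel function of order zero at the sides of a triangle. (helper862)
-/

set_option autoImplicit false

open MeasureTheory Set

namespace Pool.Agent.N862.TR

theorem J_493 : J (493 / 100) ≤ -(2000 / 10000 : ℝ) := by
  have h1 := J_up 4 (s := 493 / 100) (by norm_num)
  norm_num [jP, Finset.sum_range_succ, Nat.factorial] at h1
  linarith

theorem J_neg2 {s : ℝ} (h0 : 209 / 50 ≤ s) (h1 : s ≤ 27 / 5) : J s ≤ 0 := by
  rcases le_total s (493 / 100) with h | h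
  · exact J_neg h0 h
  · have h2 := lip (a := 493 / 100) (s := s) (s' := 493 / 100) (by norm_num) h (le_refl _)
      (by norm_num) En_493
    have h3 : |493 / 100 - s| ≤ 47 / 100 := by rw [abs_le]; constructor <;> linarith
    have h4 := J_493
    nlinarith

theorem sK_anti2 : AntitoneOn (fun s => s * K s) (Icc (209 / 50) (27 / 5)) := by
  have hd : ∀ s : ℝ, 0 < s → HasDerivAt (fun s => s * K s) (s * J s) s := by
    intro s hs
    have h := (hasDerivAt_id s).mul (K_deriv s hs.ne')
    refine h.congr_deriv ?_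
    simp only [id]
    field_simp
    ring
  apply antitoneOn_of_deriv_nonpos (convex_Icc _ _)
  · intro s hs
    exact (hd s (lt_of_lt_of_le (by norm_num) hs.1)).continuousAt.continuousWithinAt
  · intro s hs
    rw [interior_Icc] at hs
    exact (hd s (lt_trans (by norm_num) hs.1)).differentiableAt.differentiableWithinAt
  · intro s hs
    rw [interior_Icc] at hs
    have hs0 : 0 < s := lt_trans (by norm_num) hs.1
    rw [(hd s hs0).deriv]
    exact mul_nonpos_of_nonneg_of_nonpos hs0.le (J_neg2 hs.1.le hs.2.le)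

theorem K_nonpos2 {s : ℝ} (h0 : 209 / 50 ≤ s) (h1 : s ≤ 27 / 5) : K s ≤ 0 := by
  have h2 := sK_anti2 (show (209 / 50 : ℝ) ∈ Icc (209 / 50 : ℝ) (27 / 5) by
    constructor <;> norm_num) (show s ∈ Icc (209 / 50 : ℝ) (27 / 5) from ⟨h0, h1⟩) h0
  simp only at h2
  have h3 := K_418
  have hs0 : 0 < s := lt_of_lt_of_le (by norm_num) h0
  have h4 : s * K s ≤ 0 := h2.trans (mul_nonpos_of_nonneg_of_nonpos (by norm_num) h3)
  by_contra hcon
  rw [not_le] at hcon
  have := mul_pos hs0 hcon
  linarith

theorem J_mono2 : MonotoneOn J (Icc (209 / 50) (27 / 5)) := by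
  apply monotoneOn_of_deriv_nonneg (convex_Icc _ _)
  · intro s _
    exact (J_deriv s).continuousAt.continuousWithinAt
  · intro s _
    exact (J_deriv s).differentiableAt.differentiableWithinAt
  · intro s hs
    rw [interior_Icc] at hs
    rw [(J_deriv s).deriv]
    have := K_nonpos2 hs.1.le hs.2.le
    linarith

theorem J_ge2 {a m z : ℝ} (h0 : 209 / 50 ≤ a) (hm : m ≤ J a) (haz : a ≤ z)
    (hz : z ≤ 498 / 100) : m ≤ J z :=
  hm.trans (J_mono2 ⟨h0, by linarith⟩ ⟨h0.trans haz, by linarith⟩ haz)

theorem J_498 : -(1842 / 10000 : ℝ) ≤ J (498 / 100) := by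
  have h1 := J_low 4 (s := 498 / 100) (by norm_num)
  norm_num [jP, Finset.sum_range_succ, Nat.factorial] at h1 ⊢
  linarith

theorem J_28 : -(1851 / 10000 : ℝ) ≤ J (28 / 10) := by
  have h1 := J_low 3 (s := 28 / 10) (by norm_num)
  norm_num [jP, Finset.sum_range_succ, Nat.factorial] at h1 ⊢
  linarith

/-- between `4.98` and `9.2` -/
theorem J_mid {z : ℝ} (h0 : 498 / 100 ≤ z) (h1 : z ≤ 92 / 10) : -(1890 / 10000 : ℝ) ≤ J z := by
  rcases le_total z (27 / 5) with h | h
  · have := J_498.trans (J_mono2 ⟨by norm_num, by norm_num⟩ ⟨by linarith, h⟩ h0)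
    linarith
  rcases le_total z (595 / 100) with h' | h'
  · have k1 := lip (a := 493 / 100) (s := 11 / 2) (s' := z) (by norm_num) (by norm_num)
      (by linarith) (by norm_num) En_493
    have k2 : |z - 11 / 2| ≤ 45 / 100 := by rw [abs_le]; constructor <;> linarith
    have k3 := J_55
    nlinarith
  rcases le_total z 8 with h8 | h8
  · have k1 := lip (a := 493 / 100) (s := 7) (s' := z) (by norm_num) (by norm_num)
      (by linarith) (by norm_num) En_493
    have k2 : |z - 7| ≤ 105 / 100 := by rw [abs_le]; constructor <;> linarith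
    have k3 := J_7
    nlinarith
  · have k1 := lip (a := 7) (s := 8) (s' := z) (by norm_num) (by norm_num) (by linarith)
      (by norm_num) En_7
    have k2 : |z - 8| ≤ 12 / 10 := by rw [abs_le]; constructor <;> linarith
    have k3 := J_8
    nlinarith

theorem ga0 : -(3766 / 10000 : ℝ) ≤ J (21 / 5) := by
  have h1 := J_low 4 (s := 21 / 5) (by norm_num)
  norm_num [jP, Finset.sum_range_succ, Nat.factorial] at h1 ⊢
  linarith

theorem gb0 : -(2168 / 10000 : ℝ) ≤ J (72 / 25) := by
  have h1 := J_low 3 (s := 72 / 25) (by norm_num)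
  norm_num [jP, Finset.sum_range_succ, Nat.factorial] at h1 ⊢
  linarith

theorem ga1 : -(3576 / 10000 : ℝ) ≤ J (108 / 25) := by
  have h1 := J_low 4 (s := 108 / 25) (by norm_num)
  norm_num [jP, Finset.sum_range_succ, Nat.factorial] at h1 ⊢
  linarith

theorem gb1 : -(2355 / 10000 : ℝ) ≤ J (293 / 100) := by
  have h1 := J_low 3 (s := 293 / 100) (by norm_num)
  norm_num [jP, Finset.sum_range_succ, Nat.factorial] at h1 ⊢
  linarith

theorem ga2 : -(3433 / 10000 : ℝ) ≤ J (879 / 200) := by
  have h1 := J_low 4 (s := 879 / 200) (by norm_num)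
  norm_num [jP, Finset.sum_range_succ, Nat.factorial] at h1 ⊢
  linarith

theorem gb2 : -(2498 / 10000 : ℝ) ≤ J (297 / 100) := by
  have h1 := J_low 3 (s := 297 / 100) (by norm_num)
  norm_num [jP, Finset.sum_range_succ, Nat.factorial] at h1 ⊢
  linarith

theorem ga3 : -(3307 / 10000 : ℝ) ≤ J (891 / 200) := by
  have h1 := J_low 4 (s := 891 / 200) (by norm_num)
  norm_num [jP, Finset.sum_range_succ, Nat.factorial] at h1 ⊢
  linarith

theorem gb3 : -(2635 / 10000 : ℝ) ≤ J (301 / 100) := by
  have h1 := J_low 3 (s := 301 / 100) (by norm_num)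
  norm_num [jP, Finset.sum_range_succ, Nat.factorial] at h1 ⊢
  linarith

theorem ga4 : -(3171 / 10000 : ℝ) ≤ J (903 / 200) := by
  have h1 := J_low 4 (s := 903 / 200) (by norm_num)
  norm_num [jP, Finset.sum_range_succ, Nat.factorial] at h1 ⊢
  linarith

theorem gb4 : -(2766 / 10000 : ℝ) ≤ J (61 / 20) := by
  have h1 := J_low 3 (s := 61 / 20) (by norm_num)
  norm_num [jP, Finset.sum_range_succ, Nat.factorial] at h1 ⊢
  linarith

theorem ga5 : -(3025 / 10000 : ℝ) ≤ J (183 / 40) := by
  have h1 := J_low 4 (s := 183 / 40) (by norm_num)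
  norm_num [jP, Finset.sum_range_succ, Nat.factorial] at h1 ⊢
  linarith

theorem gb5 : -(2891 / 10000 : ℝ) ≤ J (309 / 100) := by
  have h1 := J_low 3 (s := 309 / 100) (by norm_num)
  norm_num [jP, Finset.sum_range_succ, Nat.factorial] at h1 ⊢
  linarith

theorem ga6 : -(2871 / 10000 : ℝ) ≤ J (927 / 200) := by
  have h1 := J_low 4 (s := 927 / 200) (by norm_num)
  norm_num [jP, Finset.sum_range_succ, Nat.factorial] at h1 ⊢
  linarith

theorem gb6 : -(3067 / 10000 : ℝ) ≤ J (63 / 20) := by
  have h1 := J_low 3 (s := 63 / 20) (by norm_num)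
  norm_num [jP, Finset.sum_range_succ, Nat.factorial] at h1 ⊢
  linarith

theorem ga7 : -(2623 / 10000 : ℝ) ≤ J (189 / 40) := by
  have h1 := J_low 4 (s := 189 / 40) (by norm_num)
  norm_num [jP, Finset.sum_range_succ, Nat.factorial] at h1 ⊢
  linarith

theorem gb7 : -(3304 / 10000 : ℝ) ≤ J (81 / 25) := by
  have h1 := J_low 3 (s := 81 / 25) (by norm_num)
  norm_num [jP, Finset.sum_range_succ, Nat.factorial] at h1 ⊢
  linarith

theorem ga8 : -(2223 / 10000 : ℝ) ≤ J (243 / 50) := by
  have h1 := J_low 4 (s := 243 / 50) (by norm_num)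
  norm_num [jP, Finset.sum_range_succ, Nat.factorial] at h1 ⊢
  linarith

theorem gb8 : -(3487 / 10000 : ℝ) ≤ J (83 / 25) := by
  have h1 := J_low 3 (s := 83 / 25) (by norm_num)
  norm_num [jP, Finset.sum_range_succ, Nat.factorial] at h1 ⊢
  linarith

theorem pair {x z : ℝ} (hx : 0 ≤ x) (hxz : 3 / 2 * x ≤ z) (hz : z ≤ 498 / 100) :
    -(5945 / 10000 : ℝ) ≤ J x + J z := by
  have hz0 : 0 ≤ z := by linarith
  rcases le_total x (28 / 10) with h | h
  · have k1 := J_le hx (by norm_num) J_28 h
    have k2 := J_all hz0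
    linarith
  rcases le_total x (72 / 25) with h0 | h0
  · have k1 := J_le hx (by norm_num) gb0 h0
    have k2 := J_ge2 (by norm_num) ga0 (show 21 / 5 ≤ z by linarith) hz
    linarith
  rcases le_total x (293 / 100) with h1 | h1
  · have k1 := J_le hx (by norm_num) gb1 h1
    have k2 := J_ge2 (by norm_num) ga1 (show 108 / 25 ≤ z by linarith) hz
    linarith
  rcases le_total x (297 / 100) with h2 | h2
  · have k1 := J_le hx (by norm_num) gb2 h2
    have k2 := J_ge2 (by norm_num) ga2 (show 879 / 200 ≤ z by linarith) hz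
    linarith
  rcases le_total x (301 / 100) with h3 | h3
  · have k1 := J_le hx (by norm_num) gb3 h3
    have k2 := J_ge2 (by norm_num) ga3 (show 891 / 200 ≤ z by linarith) hz
    linarith
  rcases le_total x (61 / 20) with h4 | h4
  · have k1 := J_le hx (by norm_num) gb4 h4
    have k2 := J_ge2 (by norm_num) ga4 (show 903 / 200 ≤ z by linarith) hz
    linarith
  rcases le_total x (309 / 100) with h5 | h5
  · have k1 := J_le hx (by norm_num) gb5 h5
    have k2 := J_ge2 (by norm_num) ga5 (show 183 / 40 ≤ z by linarith) hz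
    linarith
  rcases le_total x (63 / 20) with h6 | h6
  · have k1 := J_le hx (by norm_num) gb6 h6
    have k2 := J_ge2 (by norm_num) ga6 (show 927 / 200 ≤ z by linarith) hz
    linarith
  rcases le_total x (81 / 25) with h7 | h7
  · have k1 := J_le hx (by norm_num) gb7 h7
    have k2 := J_ge2 (by norm_num) ga7 (show 189 / 40 ≤ z by linarith) hz
    linarith
  rcases le_total x (83 / 25) with h8 | h8
  · have k1 := J_le hx (by norm_num) gb8 h8
    have k2 := J_ge2 (by norm_num) ga8 (show 243 / 50 ≤ z by linarith) hz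
    linarith
  · have k1 := J_all hx
    have k2 := J_ge2 (by norm_num) J_498 (show 498 / 100 ≤ z by linarith) hz
    linarith

theorem J_three_sorted {x y z : ℝ} (hx : 0 ≤ x) (hxy : x ≤ y) (hyz : y ≤ z) (hz : z ≤ x + y)
    (hr : 3 / 2 * x ≤ z) : -(9995 / 10000 : ℝ) ≤ J x + J y + J z := by
  have hy : 0 ≤ y := hx.trans hxy
  have kx := J_all hx
  have ky := J_all hy
  rcases le_total z (498 / 100) with h | h
  · have := pair hx hr h
    linarith
  rcases le_total z (92 / 10) with h' | h'
  · have := J_mid h h'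
    linarith
  · have kz := J_far (s := z) (by linarith)
    rcases le_total y (493 / 100) with h2 | h2
    · have k1 := J_ge (by norm_num) (by norm_num) a2 (by norm_num) (show 427 / 100 ≤ x by linarith)
      have k2 := J_ge (by norm_num) (by norm_num) a2 (by norm_num) (show 427 / 100 ≤ y by linarith)
      linarith
    · have := J_far h2
      linarith

theorem J_three {x y z : ℝ} (hx : 0 ≤ x) (hy : 0 ≤ y) (hz : 0 ≤ z) (h1 : z ≤ x + y)
    (h2 : x ≤ y + z) (h3 : y ≤ x + z) (hr : 3 / 2 * min x (min y z) ≤ max x (max y z)) :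
    -(9995 / 10000 : ℝ) ≤ J x + J y + J z := by
  rcases le_total x y with a | a <;> rcases le_total y z with b | b <;>
    rcases le_total x z with c | c
  · rw [min_eq_left b, min_eq_left a, max_eq_right b, max_eq_right c] at hr
    exact J_three_sorted hx a b h1 hr
  · rw [min_eq_left b, min_eq_left a, max_eq_right b, max_eq_left c] at hr
    have e : x = z := le_antisymm (a.trans b) c
    have := J_three_sorted hx a b h1 (by rw [← e]; exact hr)
    linarith
  · rw [min_eq_right b, min_eq_left c, max_eq_left b, max_eq_right a] at hr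
    have := J_three_sorted (x := x) (y := z) (z := y) hx c b (by linarith) hr
    linarith
  · rw [min_eq_right b, min_eq_right c, max_eq_left b, max_eq_right a] at hr
    have := J_three_sorted (x := z) (y := x) (z := y) hz c a (by linarith) hr
    linarith
  · rw [min_eq_left b, min_eq_right a, max_eq_right b, max_eq_right c] at hr
    have := J_three_sorted (x := y) (y := x) (z := z) hy a c (by linarith) hr
    linarith
  · rw [min_eq_left b, min_eq_right a, max_eq_right b, max_eq_left c] at hr
    have := J_three_sorted (x := y) (y := z) (z := x) hy b c (by linarith) hr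
    linarith
  · rw [min_eq_right b, min_eq_left c, max_eq_left b, max_eq_left a] at hr
    have e : x = z := le_antisymm c (b.trans a)
    have := J_three_sorted (x := z) (y := y) (z := x) hz b a (by linarith) (by rw [← e]; exact hr)
    linarith
  · rw [min_eq_right b, min_eq_right c, max_eq_left b, max_eq_left a] at hr
    have := J_three_sorted (x := z) (y := y) (z := x) hz b a (by linarith) hr
    linarith

end Pool.Agent.N862.TR
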