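import Pool.Agent.N862.TR.Bes

/-!
Taylor bounds for the Bessel functions of order zero and one. (helper862)
-/

set_option autoImplicit false

open MeasureTheory Set

namespace Pool.Agent.N862.TR

noncomputable def cP (n : ℕ) (y : ℝ) : ℝ :=
  ∑ k ∈ Finset.range n, (-1) ^ k * y ^ (2 * k) / (2 * k).factorial

noncomputable def sP (n : ℕ) (y : ℝ) : ℝ :=
  ∑ k ∈ Finset.range n, (-1) ^ k * y ^ (2 * k + 1) / (2 * k + 1).factorial

theorem dsP (n : ℕ) (y : ℝ) : HasDerivAt (sP n) (cP n y) y := by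
  unfold sP cP
  apply HasDerivAt.fun_sum
  intro k _
  have h := ((hasDerivAt_pow (2 * k + 1) y).const_mul ((-1 : ℝ) ^ k)).div_const
    ((2 * k + 1).factorial : ℝ)
  refine h.congr_deriv ?_
  rw [Nat.factorial_succ]
  have h1 : ((2 * k).factorial : ℝ) ≠ 0 := by positivity
  have h2 : ((2 * k + 1 : ℕ) : ℝ) ≠ 0 := by positivity
  rw [show 2 * k + 1 - 1 = 2 * k by omega, Nat.cast_mul]
  field_simp

theorem dcP (n : ℕ) (y : ℝ) : HasDerivAt (cP (n + 1)) (-sP n y) y := by
  have e : cP (n + 1) = fun y => (∑ k ∈ Finset.range n,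
      (-1 : ℝ) ^ (k + 1) * y ^ (2 * (k + 1)) / (2 * (k + 1)).factorial) + 1 := by
    funext y
    unfold cP
    rw [Finset.sum_range_succ']
    simp
  rw [e]
  unfold sP
  rw [← Finset.sum_neg_distrib]
  apply HasDerivAt.add_const
  apply HasDerivAt.fun_sum
  intro k _
  have h := ((hasDerivAt_pow (2 * (k + 1)) y).const_mul ((-1 : ℝ) ^ (k + 1))).div_const
    ((2 * (k + 1)).factorial : ℝ)
  refine h.congr_deriv ?_
  rw [show 2 * (k + 1) = (2 * k + 1) + 1 by ring, Nat.factorial_succ]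
  have h1 : ((2 * k + 1).factorial : ℝ) ≠ 0 := by positivity
  have h2 : ((2 * k + 1 + 1 : ℕ) : ℝ) ≠ 0 := by positivity
  rw [show 2 * k + 1 + 1 - 1 = 2 * k + 1 by omega, Nat.cast_mul]
  field_simp
  ring

theorem mono0 {φ φ' : ℝ → ℝ} (h : ∀ y, HasDerivAt φ (φ' y) y) (h0 : φ 0 = 0)
    (h1 : ∀ y, 0 ≤ y → 0 ≤ φ' y) : ∀ y, 0 ≤ y → 0 ≤ φ y := by
  have hm : MonotoneOn φ (Ici 0) := by
    apply monotoneOn_of_deriv_nonneg (convex_Ici 0)
    · intro y _
      exact (h y).continuousAt.continuousWithinAt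
    · intro y _
      exact (h y).differentiableAt.differentiableWithinAt
    · intro y hy
      rw [interior_Ici] at hy
      rw [(h y).deriv]
      exact h1 y (le_of_lt hy)
  intro y hy
  rw [← h0]
  exact hm (by simp) hy hy

theorem tay (n : ℕ) : (∀ y : ℝ, 0 ≤ y → 0 ≤ (-1) ^ (n + 1) * (Real.cos y - cP (n + 1) y)) ∧
    ∀ y : ℝ, 0 ≤ y → 0 ≤ (-1) ^ (n + 1) * (Real.sin y - sP (n + 1) y) := by
  have step : ∀ n : ℕ, (∀ y : ℝ, 0 ≤ y → 0 ≤ (-1) ^ n * (Real.cos y - cP n y)) →
      ∀ y : ℝ, 0 ≤ y → 0 ≤ (-1) ^ n * (Real.sin y - sP n y) := by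
    intro n h
    apply mono0 (φ' := fun y => (-1) ^ n * (Real.cos y - cP n y))
    · intro y
      exact ((Real.hasDerivAt_sin y).sub (dsP n y)).const_mul _
    · unfold sP
      simp
    · exact h
  have step2 : ∀ n : ℕ, (∀ y : ℝ, 0 ≤ y → 0 ≤ (-1) ^ n * (Real.sin y - sP n y)) →
      ∀ y : ℝ, 0 ≤ y → 0 ≤ (-1) ^ (n + 1) * (Real.cos y - cP (n + 1) y) := by
    intro n h
    apply mono0 (φ' := fun y => (-1) ^ (n + 1) * (-Real.sin y - -sP n y))
    · intro y
      exact ((Real.hasDerivAt_cos y).sub (dcP n y)).const_mul _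
    · unfold cP
      rw [Finset.sum_range_succ']
      simp
    · intro y hy
      have := h y hy
      have e : (-1 : ℝ) ^ (n + 1) * (-Real.sin y - -sP n y) =
          (-1) ^ n * (Real.sin y - sP n y) := by ring
      rw [e]
      exact this
  induction n with
  | zero =>
    have h1 : ∀ y : ℝ, 0 ≤ y → 0 ≤ (-1) ^ (0 + 1) * (Real.cos y - cP (0 + 1) y) := by
      intro y _
      unfold cP
      have := Real.cos_le_one y
      simp
      linarith
    exact ⟨h1, step 1 h1⟩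
  | succ n ih =>
    have h1 := step2 (n + 1) ih.2
    exact ⟨h1, step (n + 2) h1⟩

/-- Wallis integrals -/
theorem wal (k : ℕ) : Real.pi⁻¹ * ∫ θ in (0 : ℝ)..Real.pi, Real.sin θ ^ (2 * k) =
    ((2 * k).factorial : ℝ) / (4 ^ k * (k.factorial : ℝ) ^ 2) := by
  rw [integral_sin_pow_even, ← mul_assoc, inv_mul_cancel₀ Real.pi_ne_zero, one_mul]
  induction k with
  | zero => simp
  | succ k ih =>
    rw [Finset.prod_range_succ, ih, show 2 * (k + 1) = (2 * k + 1) + 1 by ring,
      Nat.factorial_succ, Nat.factorial_succ, Nat.factorial_succ]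
    have h1 : ((2 * k).factorial : ℝ) ≠ 0 := by positivity
    have h2 : (k.factorial : ℝ) ≠ 0 := by positivity
    push_cast
    field_simp
    ring

noncomputable def jP (n : ℕ) (s : ℝ) : ℝ :=
  ∑ k ∈ Finset.range n, (-1) ^ k * s ^ (2 * k) / (4 ^ k * (k.factorial : ℝ) ^ 2)

noncomputable def kP (n : ℕ) (s : ℝ) : ℝ :=
  ∑ k ∈ Finset.range n, (-1) ^ k * s ^ (2 * k + 1) /
    (2 * 4 ^ k * (k.factorial : ℝ) * ((k + 1).factorial : ℝ))

theorem jP_eq (n : ℕ) (s : ℝ) :
    jP n s = Real.pi⁻¹ * ∫ θ in (0 : ℝ)..Real.pi, cP n (s * Real.sin θ) := by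
  unfold cP jP
  rw [intervalIntegral.integral_finsetSum]
  · rw [Finset.mul_sum]
    refine Finset.sum_congr rfl fun k _ => ?_
    have h1 : ∫ θ in (0 : ℝ)..Real.pi, (-1 : ℝ) ^ k * (s * Real.sin θ) ^ (2 * k) /
        ((2 * k).factorial : ℝ) = ((-1) ^ k * s ^ (2 * k) / ((2 * k).factorial : ℝ)) *
          ∫ θ in (0 : ℝ)..Real.pi, Real.sin θ ^ (2 * k) := by
      rw [← intervalIntegral.integral_const_mul]
      apply intervalIntegral.integral_congr
      intro θ _
      simp only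
      rw [mul_pow]
      ring
    rw [h1, mul_left_comm, wal]
    have h2 : ((2 * k).factorial : ℝ) ≠ 0 := by positivity
    field_simp
  · intro k _
    exact (by fun_prop : Continuous fun θ : ℝ => (-1 : ℝ) ^ k * (s * Real.sin θ) ^ (2 * k) /
      ((2 * k).factorial : ℝ)).intervalIntegrable _ _

theorem kP_eq (n : ℕ) (s : ℝ) :
    kP n s = Real.pi⁻¹ * ∫ θ in (0 : ℝ)..Real.pi, Real.sin θ * sP n (s * Real.sin θ) := by
  unfold sP kP
  simp only [Finset.mul_sum]
  rw [intervalIntegral.integral_finsetSum]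
  · rw [Finset.mul_sum]
    refine Finset.sum_congr rfl fun k _ => ?_
    have h1 : ∫ θ in (0 : ℝ)..Real.pi, Real.sin θ * ((-1 : ℝ) ^ k *
        (s * Real.sin θ) ^ (2 * k + 1) / ((2 * k + 1).factorial : ℝ)) =
        ((-1) ^ k * s ^ (2 * k + 1) / ((2 * k + 1).factorial : ℝ)) *
          ∫ θ in (0 : ℝ)..Real.pi, Real.sin θ ^ (2 * (k + 1)) := by
      rw [← intervalIntegral.integral_const_mul]
      apply intervalIntegral.integral_congr
      intro θ _
      simp only
      rw [mul_pow]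
      ring
    rw [h1, mul_left_comm, wal, show 2 * (k + 1) = (2 * k + 1) + 1 by ring,
      Nat.factorial_succ (2 * k + 1), Nat.factorial_succ k]
    have h2 : ((2 * k + 1).factorial : ℝ) ≠ 0 := by positivity
    have h3 : (k.factorial : ℝ) ≠ 0 := by positivity
    push_cast
    field_simp
    ring
  · intro k _
    exact (by fun_prop : Continuous fun θ : ℝ => Real.sin θ * ((-1 : ℝ) ^ k *
      (s * Real.sin θ) ^ (2 * k + 1) / ((2 * k + 1).factorial : ℝ))).intervalIntegrable _ _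

theorem cP_cont (n : ℕ) : Continuous (cP n) := by
  unfold cP
  fun_prop

theorem sP_cont (n : ℕ) : Continuous (sP n) := by
  unfold sP
  fun_prop

theorem J_tay (n : ℕ) {s : ℝ} (hs : 0 ≤ s) : 0 ≤ (-1) ^ (n + 1) * (J s - jP (n + 1) s) := by
  rw [jP_eq]
  unfold J
  have hc := cP_cont (n + 1)
  rw [← mul_sub, ← intervalIntegral.integral_sub
    ((by fun_prop : Continuous fun θ : ℝ => Real.cos (s * Real.sin θ)).intervalIntegrable _ _)
    ((by fun_prop : Continuous fun θ : ℝ => cP (n + 1) (s * Real.sin θ)).intervalIntegrable _ _),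
    mul_left_comm, ← intervalIntegral.integral_const_mul]
  apply mul_nonneg (by positivity)
  apply intervalIntegral.integral_nonneg Real.pi_pos.le
  intro θ hθ
  exact (tay n).1 _ (mul_nonneg hs (Real.sin_nonneg_of_mem_Icc hθ))

theorem K_tay (n : ℕ) {s : ℝ} (hs : 0 ≤ s) : 0 ≤ (-1) ^ (n + 1) * (K s - kP (n + 1) s) := by
  rw [kP_eq]
  unfold K
  have hc := sP_cont (n + 1)
  rw [← mul_sub, ← intervalIntegral.integral_sub
    ((by fun_prop : Continuous fun θ : ℝ =>
      Real.sin θ * Real.sin (s * Real.sin θ)).intervalIntegrable _ _)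
    ((by fun_prop : Continuous fun θ : ℝ =>
      Real.sin θ * sP (n + 1) (s * Real.sin θ)).intervalIntegrable _ _),
    mul_left_comm, ← intervalIntegral.integral_const_mul]
  apply mul_nonneg (by positivity)
  apply intervalIntegral.integral_nonneg Real.pi_pos.le
  intro θ hθ
  have h1 := (tay n).2 _ (mul_nonneg hs (Real.sin_nonneg_of_mem_Icc hθ))
  have h2 := mul_nonneg (Real.sin_nonneg_of_mem_Icc hθ) h1
  calc (0 : ℝ) ≤ _ := h2
    _ = _ := by ring

end Pool.Agent.N862.TR
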