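import Pool.Agent.N862.TR.Num4
import Pool.Agent.N862.TR.Fin

/-!
Measurable two-colourings of the plane and copies of a general triangle. (helper862)
-/

set_option autoImplicit false

open MeasureTheory Set Complex FourierTransform
open scoped ENNReal

namespace Pool.Agent.N862.TR

theorem ptw3 {f : ℂ → ℝ} (hpm : ∀ x, f x = 1 ∨ f x = -1) {ρ R : ℝ} (hρ : 0 < ρ)
    (v w : ℂ) (hv : ‖v‖ ≤ ρ) (hw : ‖w‖ ≤ ρ)
    (hav : ∀ x, ¬ (f x = f (x + v) ∧ f (x + v) = f (x + w))) (x : ℂ) :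
    ‖gg f R x + gg f R (x + v) + gg f R (x + w)‖ ^ 2 ≤
      9 * (Metric.closedBall (0 : ℂ) (R + ρ)).indicator (fun _ => (1 : ℝ)) x -
        8 * (Metric.closedBall (0 : ℂ) (R - ρ)).indicator (fun _ => (1 : ℝ)) x := by
  rcases le_or_gt ‖x‖ (R - ρ) with h | h
  · rw [Set.indicator_of_mem (by rw [mem_closedBall_zero_iff]; linarith),
      Set.indicator_of_mem (by rwa [mem_closedBall_zero_iff])]
    have h1 : ‖x + v‖ ≤ R := (norm_add_le _ _).trans (by linarith)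
    have h2 : ‖x + w‖ ≤ R := (norm_add_le _ _).trans (by linarith)
    rw [gg_in (by linarith : ‖x‖ ≤ R), gg_in h1, gg_in h2]
    have h3 := hav x
    rcases hpm x with a | a <;> rcases hpm (x + v) with b | b <;>
      rcases hpm (x + w) with c | c <;> rw [a, b, c] at h3 ⊢ <;> first
        | exact absurd ⟨rfl, rfl⟩ h3
        | (norm_num)
  rcases le_or_gt ‖x‖ (R + ρ) with h' | h'
  · rw [Set.indicator_of_mem (by rw [mem_closedBall_zero_iff]; linarith),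
      Set.indicator_of_notMem (by rw [mem_closedBall_zero_iff]; exact not_le.2 h)]
    have h1 : ‖gg f R x + gg f R (x + v) + gg f R (x + w)‖ ≤ 3 := by
      refine (norm_add₃_le).trans ?_
      have a1 := gg_norm hpm R x
      have a2 := gg_norm hpm R (x + v)
      have a3 := gg_norm hpm R (x + w)
      linarith
    have h0 := norm_nonneg (gg f R x + gg f R (x + v) + gg f R (x + w))
    nlinarith
  · have h1 : R < ‖x + v‖ := by
      have := norm_sub_le (x + v) v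
      rw [add_sub_cancel_right] at this
      linarith
    have h2 : R < ‖x + w‖ := by
      have := norm_sub_le (x + w) w
      rw [add_sub_cancel_right] at this
      linarith
    rw [gg_out (by linarith : R < ‖x‖), gg_out h1, gg_out h2,
      Set.indicator_of_notMem (by rw [mem_closedBall_zero_iff]; exact not_le.2 h'),
      Set.indicator_of_notMem (by rw [mem_closedBall_zero_iff]; exact not_le.2 h)]
    simp

theorem ph_sub3 (v w ξ : ℂ) : ph v ξ - ph w ξ = ph (v - w) ξ := by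
  unfold ph
  rw [← mul_sub, ← inner_sub_left]

/-- the bound for one direction -/
theorem per_v3 {f : ℂ → ℝ} (hf : AEMeasurable f) (hpm : ∀ x, f x = 1 ∨ f x = -1) {ρ R : ℝ}
    (hρ : 0 < ρ) (hR : ρ ≤ R) (v w : ℂ) (hv : ‖v‖ ≤ ρ) (hw : ‖w‖ ≤ ρ)
    (hav : ∀ x, ¬ (f x = f (x + v) ∧ f (x + v) = f (x + w))) :
    ∫ ξ, ‖𝓕 (gg f R) ξ‖ ^ 2 * (3 + 2 * Real.cos (ph v ξ) + 2 * Real.cos (ph w ξ) +
      2 * Real.cos (ph (v - w) ξ)) ≤ Real.pi * (R ^ 2 + 34 * R * ρ + ρ ^ 2) := by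
  have hg : ∀ p, MemLp (gg f R) p volume := gg_memLp hf hpm R
  have hgs : ∀ w p, MemLp (fun x => gg f R (x + w)) p volume := fun w p =>
    (hg p).comp_measurePreserving (measurePreserving_add_right volume w)
  have i0 : Integrable (gg f R) := memLp_one_iff_integrable.1 (hg 1)
  have i1 : ∀ w, Integrable (fun x => gg f R (x + w)) := fun w =>
    memLp_one_iff_integrable.1 (hgs w 1)
  obtain ⟨h, hh⟩ : ∃ h : ℂ → ℂ, h = fun x => gg f R x + gg f R (x + v) + gg f R (x + w) :=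
    ⟨_, rfl⟩
  have hh1 : Integrable h := by
    rw [hh]
    exact (i0.add (i1 v)).add (i1 w)
  have hh2 : MemLp h 2 := by
    rw [hh]
    exact ((hg 2).add (hgs v 2)).add (hgs w 2)
  have hF : ∀ ξ, ‖𝓕 h ξ‖ ^ 2 = ‖𝓕 (gg f R) ξ‖ ^ 2 * (3 + 2 * Real.cos (ph v ξ) +
      2 * Real.cos (ph w ξ) + 2 * Real.cos (ph (v - w) ξ)) := by
    intro ξ
    have e1 : 𝓕 h ξ = (1 + Complex.exp ((ph v ξ : ℝ) * I) + Complex.exp ((ph w ξ : ℝ) * I)) *
        𝓕 (gg f R) ξ := by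
      have h4 : 𝓕 (fun x => gg f R x + gg f R (x + v) + gg f R (x + w)) ξ =
          𝓕 (fun x => gg f R x + gg f R (x + v)) ξ + 𝓕 (fun x => gg f R (x + w)) ξ :=
        four_add (f := fun x => gg f R x + gg f R (x + v)) (i0.add (i1 v)) (i1 _) ξ
      rw [hh, h4, four_add i0 (i1 v), four_shift, four_shift]
      ring
    rw [e1, norm_mul, mul_pow, norm_three, ph_sub3]
    ring
  have hpl := (planch hh1 hh2).2
  simp only [hF] at hpl
  rw [hpl]
  obtain ⟨iA, eA⟩ := vol_ball (R + ρ) (by linarith)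
  obtain ⟨iB, eB⟩ := vol_ball (R - ρ) (by linarith)
  have h3 : ∫ x, ‖h x‖ ^ 2 ≤ ∫ x, (9 * (Metric.closedBall (0 : ℂ) (R + ρ)).indicator
      (fun _ => (1 : ℝ)) x - 8 * (Metric.closedBall (0 : ℂ) (R - ρ)).indicator
        (fun _ => (1 : ℝ)) x) := by
    apply integral_mono (hh2.integrable_norm_pow (by norm_num))
      ((iA.const_mul 9).sub (iB.const_mul 8))
    intro x
    rw [hh]
    exact ptw3 hpm hρ v w hv hw hav x
  refine h3.trans (le_of_eq ?_)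
  rw [integral_sub (iA.const_mul 9) (iB.const_mul 8), integral_const_mul, integral_const_mul, eA,
    eB]
  ring

/-- the average over the directions -/
theorem avg_dir3 (p ξ : ℂ) :
    ∫ θ in (0 : ℝ)..(2 * Real.pi), Real.cos (ph (p * Complex.exp ((θ : ℝ) * I)) ξ) =
      2 * Real.pi * J (2 * Real.pi * ‖p‖ * ‖ξ‖) := by
  by_cases hp : p = 0
  · subst hp
    unfold ph J
    simp
  · have hp0 : (‖p‖ : ℂ) ≠ 0 := by
      rw [Ne, Complex.ofReal_eq_zero]; exact norm_ne_zero_iff.2 hp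
    have h := avg_dir (p / ‖p‖) ξ (by
      rw [norm_div, Complex.norm_real, norm_norm, div_self (norm_ne_zero_iff.2 hp)]) ‖p‖
      (norm_nonneg _)
    have e : ∀ θ : ℝ, p / ‖p‖ * (‖p‖ * Complex.exp ((θ : ℝ) * I)) =
        p * Complex.exp ((θ : ℝ) * I) := by
      intro θ
      field_simp
    simp only [e] at h
    exact h

/-- the bound after the average over the directions -/
theorem key3 {f : ℂ → ℝ} (hf : AEMeasurable f) (hpm : ∀ x, f x = 1 ∨ f x = -1) {ρ R : ℝ}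
    (hρ : 0 < ρ) (hR : ρ ≤ R) (p q : ℂ) (hp : ‖p‖ ≤ ρ) (hq : ‖q‖ ≤ ρ)
    (hav : ∀ (u : ℂ), ‖u‖ = 1 → ∀ x, ¬ (f x = f (x + p * u) ∧ f (x + p * u) = f (x + q * u))) :
    ∫ ξ, ‖𝓕 (gg f R) ξ‖ ^ 2 * (3 + 2 * (J (2 * Real.pi * ‖p‖ * ‖ξ‖) +
      J (2 * Real.pi * ‖q‖ * ‖ξ‖) + J (2 * Real.pi * ‖p - q‖ * ‖ξ‖))) ≤
      Real.pi * (R ^ 2 + 34 * R * ρ + ρ ^ 2) := by
  obtain ⟨hWi, -⟩ := W_int hf hpm R (by linarith)
  have hWc := W_cont hf hpm R
  obtain ⟨V, hV⟩ : ∃ V : ℝ → ℂ, V = fun θ => Complex.exp ((θ : ℝ) * I) := ⟨_, rfl⟩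
  have hVc : Continuous V := by rw [hV]; fun_prop
  have hVn : ∀ θ, ‖V θ‖ = 1 := by
    intro θ
    rw [hV]
    simp only [Complex.norm_exp_ofReal_mul_I]
  obtain ⟨Φ, hΦ⟩ : ∃ Φ : ℝ → ℂ → ℝ, Φ = fun θ ξ => ‖𝓕 (gg f R) ξ‖ ^ 2 *
      (3 + 2 * Real.cos (ph (p * V θ) ξ) + 2 * Real.cos (ph (q * V θ) ξ) +
        2 * Real.cos (ph ((p - q) * V θ) ξ)) := ⟨_, rfl⟩
  have hΦc : Continuous (Function.uncurry Φ) := by
    rw [hΦ]
    unfold Function.uncurry ph
    fun_prop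
  have hΦb : ∀ θ ξ, |Φ θ ξ| ≤ 9 * ‖𝓕 (gg f R) ξ‖ ^ 2 := by
    intro θ ξ
    rw [hΦ]
    simp only
    rw [abs_mul, abs_of_nonneg (sq_nonneg _), mul_comm (9 : ℝ)]
    apply mul_le_mul_of_nonneg_left _ (sq_nonneg _)
    have c1 := abs_le.1 (Real.abs_cos_le_one (ph (p * V θ) ξ))
    have c2 := abs_le.1 (Real.abs_cos_le_one (ph (q * V θ) ξ))
    have c3 := abs_le.1 (Real.abs_cos_le_one (ph ((p - q) * V θ) ξ))
    rw [abs_le]
    constructor <;> linarith [c1.1, c1.2, c2.1, c2.2, c3.1, c3.2]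
  obtain ⟨μ, hμ⟩ : ∃ μ : Measure ℝ, μ = volume.restrict (Set.Ioc 0 (2 * Real.pi)) := ⟨_, rfl⟩
  have hμf : IsFiniteMeasure μ := by
    rw [hμ]
    exact ⟨by rw [Measure.restrict_apply_univ]; exact measure_Ioc_lt_top⟩
  have hμr : μ.real Set.univ = 2 * Real.pi := by
    rw [hμ, Measure.real, Measure.restrict_apply_univ, Real.volume_Ioc, sub_zero,
      ENNReal.toReal_ofReal (by positivity)]
  have hint : Integrable (Function.uncurry Φ) (μ.prod volume) := by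
    have h1 : Integrable (fun p : ℝ × ℂ => 9 * ‖𝓕 (gg f R) p.2‖ ^ 2) (μ.prod volume) :=
      (hWi.comp_snd μ).const_mul 9
    refine h1.mono' hΦc.aestronglyMeasurable (Filter.Eventually.of_forall fun p => ?_)
    rw [Real.norm_eq_abs]
    exact hΦb p.1 p.2
  have hswap := integral_integral_swap hint
  have hleft : ∫ θ, (∫ ξ, Φ θ ξ) ∂μ ≤
      2 * Real.pi * (Real.pi * (R ^ 2 + 34 * R * ρ + ρ ^ 2)) := by
    have h1 : ∫ θ, (∫ ξ, Φ θ ξ) ∂μ ≤ ∫ _, Real.pi * (R ^ 2 + 34 * R * ρ + ρ ^ 2) ∂μ := by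
      apply integral_mono hint.integral_prod_left (integrable_const _)
      intro θ
      rw [hΦ]
      have h2 := per_v3 hf hpm hρ hR (p * V θ) (q * V θ) (by rw [norm_mul, hVn, mul_one]; exact hp)
        (by rw [norm_mul, hVn, mul_one]; exact hq) (hav (V θ) (hVn θ))
      rw [← sub_mul] at h2
      exact h2
    refine h1.trans (le_of_eq ?_)
    rw [integral_const, hμr, smul_eq_mul]
  have hright : ∫ ξ, ∫ θ, Φ θ ξ ∂μ =
      2 * Real.pi * ∫ ξ, ‖𝓕 (gg f R) ξ‖ ^ 2 * (3 + 2 * (J (2 * Real.pi * ‖p‖ * ‖ξ‖) +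
      J (2 * Real.pi * ‖q‖ * ‖ξ‖) + J (2 * Real.pi * ‖p - q‖ * ‖ξ‖))) := by
    rw [← integral_const_mul]
    apply integral_congr_ae
    refine Filter.Eventually.of_forall fun ξ => ?_
    simp only
    have hcI : ∀ u : ℂ, IntervalIntegrable (fun θ : ℝ => Real.cos (ph (u *
        Complex.exp ((θ : ℝ) * I)) ξ)) volume 0 (2 * Real.pi) := by
      intro u
      apply Continuous.intervalIntegrable
      unfold ph
      fun_prop
    rw [hμ, ← intervalIntegral.integral_of_le (by positivity), hΦ, hV]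
    simp only
    rw [intervalIntegral.integral_const_mul, intervalIntegral.integral_add
      (((intervalIntegrable_const.add ((hcI p).const_mul 2)).add ((hcI q).const_mul 2)))
      ((hcI (p - q)).const_mul 2), intervalIntegral.integral_add
      (intervalIntegrable_const.add ((hcI p).const_mul 2)) ((hcI q).const_mul 2),
      intervalIntegral.integral_add intervalIntegrable_const ((hcI p).const_mul 2),
      intervalIntegral.integral_const_mul, intervalIntegral.integral_const_mul,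
      intervalIntegral.integral_const_mul, avg_dir3, avg_dir3, avg_dir3,
      intervalIntegral.integral_const]
    rw [smul_eq_mul]
    ring
  rw [hright] at hswap
  rw [hswap] at hleft
  exact le_of_mul_le_mul_left hleft (by positivity)

/-- a measurable colouring with no monochromatic copy of a triangle -/
theorem no_three {f : ℂ → ℝ} (hf : AEMeasurable f) (hpm : ∀ x, f x = 1 ∨ f x = -1) (p q : ℂ)
    {κ : ℝ} (hp : p ≠ 0) (hκ : 0 < κ)
    (hJ : ∀ x : ℝ, 0 ≤ x → -1 + κ ≤ J (‖p‖ * x) + J (‖q‖ * x) + J (‖p - q‖ * x))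
    (hav : ∀ (u : ℂ), ‖u‖ = 1 → ∀ x, ¬ (f x = f (x + p * u) ∧ f (x + p * u) = f (x + q * u))) :
    False := by
  obtain ⟨ρ, hρ⟩ : ∃ ρ : ℝ, ρ = ‖p‖ + ‖q‖ := ⟨_, rfl⟩
  have hρ0 : 0 < ρ := by
    have := norm_pos_iff.2 hp
    have := norm_nonneg q
    linarith
  obtain ⟨R, hR⟩ : ∃ R : ℝ, R = 100 * ρ * (1 + 1 / κ) := ⟨_, rfl⟩
  have hκ' : 0 < 1 / κ := by positivity
  have hR1 : 100 * ρ ≤ R := by
    rw [hR]
    nlinarith [mul_pos (show 0 < 100 * ρ by positivity) hκ']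
  have hR2 : 100 * ρ ≤ κ * R := by
    rw [hR]
    have : κ * (100 * ρ * (1 + 1 / κ)) = 100 * ρ * κ + 100 * ρ := by
      field_simp
    rw [this]
    nlinarith [mul_pos (show 0 < 100 * ρ by positivity) hκ]
  have hR0 : 0 < R := by linarith
  have k1 := key3 hf hpm hρ0 (by linarith) p q (by linarith [norm_nonneg q])
    (by linarith [norm_nonneg p]) hav (R := R)
  obtain ⟨hWi, hWe⟩ := W_int hf hpm R hR0.le
  have hWc := W_cont hf hpm R
  have hi : Integrable (fun ξ => ‖𝓕 (gg f R) ξ‖ ^ 2 *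
      (3 + 2 * (J (2 * Real.pi * ‖p‖ * ‖ξ‖) +
      J (2 * Real.pi * ‖q‖ * ‖ξ‖) + J (2 * Real.pi * ‖p - q‖ * ‖ξ‖)))) := by
    have hc : Continuous (fun ξ => ‖𝓕 (gg f R) ξ‖ ^ 2 *
      (3 + 2 * (J (2 * Real.pi * ‖p‖ * ‖ξ‖) +
      J (2 * Real.pi * ‖q‖ * ‖ξ‖) + J (2 * Real.pi * ‖p - q‖ * ‖ξ‖)))) := by
      have := J_cont
      fun_prop
    refine (hWi.const_mul 9).mono' hc.aestronglyMeasurable (Filter.Eventually.of_forall fun ξ => ?_)
    rw [Real.norm_eq_abs, abs_mul, abs_of_nonneg (sq_nonneg _), mul_comm]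
    apply mul_le_mul_of_nonneg_right _ (sq_nonneg _)
    have b1 := abs_le.1 (J_abs (2 * Real.pi * ‖p‖ * ‖ξ‖))
    have b2 := abs_le.1 (J_abs (2 * Real.pi * ‖q‖ * ‖ξ‖))
    have b3 := abs_le.1 (J_abs (2 * Real.pi * ‖p - q‖ * ‖ξ‖))
    rw [abs_le]
    constructor <;> linarith [b1.1, b1.2, b2.1, b2.2, b3.1, b3.2]
  have k3 : (1 + 2 * κ) * (Real.pi * R ^ 2) ≤
      ∫ ξ, ‖𝓕 (gg f R) ξ‖ ^ 2 * (3 + 2 * (J (2 * Real.pi * ‖p‖ * ‖ξ‖) +
      J (2 * Real.pi * ‖q‖ * ‖ξ‖) + J (2 * Real.pi * ‖p - q‖ * ‖ξ‖))) := by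
    rw [← hWe, ← integral_const_mul]
    apply integral_mono (hWi.const_mul _) hi
    intro ξ
    simp only
    have h3 := hJ (2 * Real.pi * ‖ξ‖) (by positivity)
    rw [show ‖p‖ * (2 * Real.pi * ‖ξ‖) = 2 * Real.pi * ‖p‖ * ‖ξ‖ by ring,
      show ‖q‖ * (2 * Real.pi * ‖ξ‖) = 2 * Real.pi * ‖q‖ * ‖ξ‖ by ring,
      show ‖p - q‖ * (2 * Real.pi * ‖ξ‖) = 2 * Real.pi * ‖p - q‖ * ‖ξ‖ by ring] at h3
    have h4 : 0 ≤ ‖𝓕 (gg f R) ξ‖ ^ 2 := sq_nonneg _
    have h5 := mul_le_mul_of_nonneg_left h3 h4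
    linarith
  have k4 := k3.trans k1
  have k5 : (1 + 2 * κ) * R ^ 2 ≤ R ^ 2 + 34 * R * ρ + ρ ^ 2 := by
    have : Real.pi * ((1 + 2 * κ) * R ^ 2) ≤ Real.pi * (R ^ 2 + 34 * R * ρ + ρ ^ 2) := by linarith
    exact le_of_mul_le_mul_left this Real.pi_pos
  have k6 : 2 * (κ * R) * R ≤ 34 * R * ρ + ρ ^ 2 := by nlinarith
  have k7 : 2 * (100 * ρ) * R ≤ 2 * (κ * R) * R := by
    apply mul_le_mul_of_nonneg_right _ hR0.le
    linarith
  have k8 : ρ ^ 2 ≤ ρ * R := by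
    nlinarith [mul_le_mul_of_nonneg_left hR1 hρ0.le]
  nlinarith [mul_pos hρ0 hR0]

end Pool.Agent.N862.TR
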